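import Mathlib

set_option autoImplicit false

namespace Pool.Agent.Lib.MP_a3b629_pr

/-- `srw d n x`: the probability that simple random walk on `ℤ^d` started at the origin is at `x`
after `n` steps. -/
noncomputable def srw (d : ℕ) : ℕ → (Fin d → ℤ) → ℝ
  | 0, x => if x = 0 then 1 else 0
  | n + 1, x =>
    (∑ j : Fin d, (srw d n (x - Pi.single j 1) + srw d n (x + Pi.single j 1))) / (2 * d)

/-- The Green function of simple random walk on `ℤ^d`. -/
noncomputable def green (d : ℕ) (x : Fin d → ℤ) : ℝ := ∑' n, srw d n x

/-- `greenConv d k`: the `k`-fold convolution of the Green function with itself. -/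
noncomputable def greenConv (d : ℕ) : ℕ → (Fin d → ℤ) → ℝ
  | 0, x => if x = 0 then 1 else 0
  | k + 1, x => ∑' y, greenConv d k y * green d (x - y)

/-- The law of one step of simple random walk: uniform on the `2 d` vectors `± e_j`. -/
noncomputable def stepLaw (d : ℕ) : MeasureTheory.Measure (Fin d → ℤ) :=
  (2 * d : ENNReal)⁻¹ • ∑ j : Fin d,
    (MeasureTheory.Measure.dirac (Pi.single j 1) + MeasureTheory.Measure.dirac (-Pi.single j 1))

end Pool.Agent.Lib.MP_a3b629_pr
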