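import Mathlib

/-!
The one-dimensional continuous-time random walk kernel
`q s k = exp (-2 s) * ∑ n, s ^ n / n! * W n k`, `W n k` the number of nearest-neighbour walks of
length `n` from `0` to `k`, with elementary estimates.
-/

set_option autoImplicit false

open Finset Filter Topology

namespace Pool.Agent.Lib.MP_a3b629_pr

/-- Exponential generating function. -/
noncomputable def egf (f : ℕ → ℝ) (s : ℝ) : ℝ := ∑' n, s ^ n / (n.factorial : ℝ) * f n

/-- Binomial convolution. -/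
noncomputable def bc (f g : ℕ → ℝ) (n : ℕ) : ℝ :=
  ∑ ij ∈ antidiagonal n, (n.choose ij.1 : ℝ) * (f ij.1 * g ij.2)

theorem summable_egf_norm {f : ℕ → ℝ} {C : ℝ} (hf : ∀ n, |f n| ≤ C ^ n) (s : ℝ) :
    Summable fun n => ‖s ^ n / (n.factorial : ℝ) * f n‖ := by
  refine Summable.of_nonneg_of_le (fun _ => norm_nonneg _) (fun n => ?_)
    (Real.summable_pow_div_factorial (|s| * C))
  rw [Real.norm_eq_abs, abs_mul, abs_div, abs_pow, Nat.abs_cast, mul_pow, div_mul_eq_mul_div]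
  gcongr
  exact hf n

theorem summable_egf {f : ℕ → ℝ} {C : ℝ} (hf : ∀ n, |f n| ≤ C ^ n) (s : ℝ) :
    Summable fun n => s ^ n / (n.factorial : ℝ) * f n :=
  (summable_egf_norm hf s).of_norm

theorem egf_bc {f g : ℕ → ℝ} {C D : ℝ} (hf : ∀ n, |f n| ≤ C ^ n) (hg : ∀ n, |g n| ≤ D ^ n)
    (s : ℝ) : egf (bc f g) s = egf f s * egf g s := by
  unfold egf
  rw [tsum_mul_tsum_eq_tsum_sum_antidiagonal_of_summable_norm (summable_egf_norm hf s)
    (summable_egf_norm hg s)]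
  refine tsum_congr fun n => ?_
  unfold bc
  rw [mul_sum]
  refine sum_congr rfl fun ij hij => ?_
  have h : ij.1 + ij.2 = n := mem_antidiagonal.1 hij
  have h1 : ((n.choose ij.1 : ℕ) : ℝ) * (ij.1.factorial : ℝ) * (ij.2.factorial : ℝ) =
      (n.factorial : ℝ) := by
    have := Nat.add_choose_mul_factorial_mul_factorial ij.2 ij.1
    rw [add_comm, h] at this
    rw [← this]; push_cast; ring
  have h2 : (ij.1.factorial : ℝ) ≠ 0 := by positivity
  have h3 : (ij.2.factorial : ℝ) ≠ 0 := by positivity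
  have h4 : ((n.choose ij.1 : ℕ) : ℝ) ≠ 0 := by
    have : 0 < n.choose ij.1 := Nat.choose_pos (by omega)
    positivity
  rw [← h1, ← h, pow_add]
  rw [h]
  field_simp

theorem bc_succ (f g : ℕ → ℝ) (n : ℕ) :
    bc f g (n + 1) = bc f (fun m => g (m + 1)) n + bc (fun m => f (m + 1)) g n := by
  unfold bc
  rw [sum_antidiagonal_choose_succ_mul (fun i j => f i * g j) n]
  congr 1
  refine sum_congr rfl fun ij hij => ?_
  have h : ij.1 + ij.2 = n := mem_antidiagonal.1 hij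
  rw [← h, Nat.choose_symm_add]

theorem bc_zero (f g : ℕ → ℝ) : bc f g 0 = f 0 * g 0 := by simp [bc]

theorem egf_pow (c s : ℝ) : egf (fun n => c ^ n) s = Real.exp (c * s) := by
  unfold egf
  rw [Real.exp_eq_exp_ℝ, ← (NormedSpace.expSeries_div_hasSum_exp (c * s)).tsum_eq]
  refine tsum_congr fun n => ?_
  rw [mul_pow]; ring

/-- Number of nearest-neighbour walks on `ℤ` of length `n` from `0` to `k`. -/
noncomputable def W : ℕ → ℤ → ℝ
  | 0, k => if k = 0 then 1 else 0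
  | n + 1, k => W n (k - 1) + W n (k + 1)

theorem W_nonneg : ∀ (n : ℕ) (k : ℤ), 0 ≤ W n k
  | 0, k => by unfold W; split_ifs <;> norm_num
  | n + 1, k => add_nonneg (W_nonneg n _) (W_nonneg n _)

theorem W_le : ∀ (n : ℕ) (k : ℤ), W n k ≤ 2 ^ n
  | 0, k => by unfold W; split_ifs <;> norm_num
  | n + 1, k => by
    have h1 := W_le n (k - 1)
    have h2 := W_le n (k + 1)
    simp only [W, pow_succ]; linarith

theorem abs_W_le (k : ℤ) (n : ℕ) : |W n k| ≤ 2 ^ n := by
  rw [abs_of_nonneg (W_nonneg n k)]; exact W_le n k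

theorem W_neg : ∀ (n : ℕ) (k : ℤ), W n (-k) = W n k
  | 0, k => by simp [W]
  | n + 1, k => by
    have h1 := W_neg n (k + 1)
    have h2 := W_neg n (k - 1)
    simp only [W]
    rw [show -k - 1 = -(k + 1) by ring, show -k + 1 = -(k - 1) by ring, h1, h2, add_comm]

theorem W_rec : ∀ (n : ℕ) (k : ℤ),
    (k : ℝ) * W (n + 1) k = (n + 1 : ℝ) * (W n (k - 1) - W n (k + 1))
  | 0, k => by
    simp only [W]
    by_cases h1 : k = 1
    · subst h1; norm_num
    · by_cases h2 : k = -1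
      · subst h2; norm_num
      · have h3 : k - 1 ≠ 0 := by omega
        have h4 : k + 1 ≠ 0 := by omega
        simp [h3, h4]
  | n + 1, k => by
    have h1 := W_rec n (k - 1)
    have h2 := W_rec n (k + 1)
    have e1 : W (n + 2) k = W (n + 1) (k - 1) + W (n + 1) (k + 1) := rfl
    have e2 : W (n + 1) (k - 1) = W n (k - 1 - 1) + W n (k - 1 + 1) := rfl
    have e3 : W (n + 1) (k + 1) = W n (k + 1 - 1) + W n (k + 1 + 1) := rfl
    rw [show k - 1 + 1 = k by ring] at h1 e2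
    rw [show k + 1 - 1 = k by ring] at h2 e3
    push_cast at h1 h2 ⊢
    rw [e1]
    linear_combination h1 + h2 - (n + 1 : ℝ) * e2 + (n + 1 : ℝ) * e3

theorem hasSum_W : ∀ n : ℕ, HasSum (W n) (2 ^ n)
  | 0 => by
    have := hasSum_ite_eq (0 : ℤ) (1 : ℝ)
    simpa [W] using this
  | n + 1 => by
    have h1 : HasSum (fun k => W n (k - 1)) (2 ^ n) :=
      (Equiv.subRight (1 : ℤ)).hasSum_iff.2 (hasSum_W n)
    have h2 : HasSum (fun k => W n (k + 1)) (2 ^ n) :=
      (Equiv.addRight (1 : ℤ)).hasSum_iff.2 (hasSum_W n)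
    have := h1.add h2
    rw [show (2 : ℝ) ^ n + 2 ^ n = 2 ^ (n + 1) by ring] at this
    exact this

/-- Lazy walk counts. -/
noncomputable def L (n : ℕ) (k : ℤ) : ℝ := bc (fun m => W m k) (fun m => 2 ^ m) n

theorem L_succ (n : ℕ) (k : ℤ) : L (n + 1) k = L n (k - 1) + 2 * L n k + L n (k + 1) := by
  unfold L
  rw [bc_succ]
  unfold bc
  simp only [W, mul_sum, ← sum_add_distrib]
  refine sum_congr rfl fun ij _ => ?_
  ring

theorem L_neg (n : ℕ) (k : ℤ) : L n (-k) = L n k := by simp [L, W_neg]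

theorem L_anti : ∀ (n : ℕ) (k : ℤ), 0 ≤ k → L n (k + 1) ≤ L n k
  | 0, k, hk => by
    have : k + 1 ≠ 0 := by omega
    simp only [L, bc_zero, W, this, if_false]
    split_ifs <;> norm_num
  | n + 1, k, hk => by
    rw [L_succ, L_succ, show k + 1 - 1 = k by ring]
    have h1 := L_anti n k hk
    have h2 := L_anti n (k + 1) (by omega)
    rcases hk.eq_or_lt with h0 | h0
    · subst h0
      have h3 := L_neg n 1
      simp only [zero_sub, zero_add] at *
      linarith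
    · have h3 := L_anti n (k - 1) (by omega)
      rw [show k - 1 + 1 = k by ring] at h3
      linarith

theorem abs_L_le (k : ℤ) (n : ℕ) : |L n k| ≤ 4 ^ n := by
  unfold L bc
  refine (abs_sum_le_sum_abs _ _).trans ?_
  rw [show (4 : ℝ) = 2 + 2 by norm_num, (Commute.all (2 : ℝ) 2).add_pow']
  refine sum_le_sum fun ij _ => ?_
  rw [abs_mul, abs_mul, Nat.abs_cast, nsmul_eq_mul, abs_of_nonneg (by positivity : (0 : ℝ) ≤ 2 ^ ij.2)]
  gcongr
  exact abs_W_le k _

/-- The continuous-time kernel. -/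
noncomputable def q (s : ℝ) (k : ℤ) : ℝ := Real.exp (-(2 * s)) * egf (fun n => W n k) s

theorem q_neg (s : ℝ) (k : ℤ) : q s (-k) = q s k := by simp [q, W_neg]

theorem q_nonneg {s : ℝ} (hs : 0 ≤ s) (k : ℤ) : 0 ≤ q s k :=
  mul_nonneg (Real.exp_pos _).le (tsum_nonneg fun n => mul_nonneg (by positivity) (W_nonneg n k))

theorem q_succ_le {s : ℝ} (hs : 0 ≤ s) {k : ℤ} (hk : 0 ≤ k) : q s (k + 1) ≤ q s k := by
  have h : ∀ j, egf (fun n => L n j) s = egf (fun n => W n j) s * Real.exp (2 * s) := by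
    intro j
    rw [← egf_pow]
    exact egf_bc (abs_W_le j) (D := 2) (fun n => by simp [abs_of_nonneg]) s
  have h1 : egf (fun n => L n (k + 1)) s ≤ egf (fun n => L n k) s :=
    (summable_egf (abs_L_le _) s).tsum_le_tsum
      (fun n => mul_le_mul_of_nonneg_left (L_anti n k hk) (by positivity))
      (summable_egf (abs_L_le _) s)
  rw [h, h] at h1
  have h2 := le_of_mul_le_mul_right h1 (Real.exp_pos _)
  exact mul_le_mul_of_nonneg_left h2 (Real.exp_pos _).le

theorem q_anti {s : ℝ} (hs : 0 ≤ s) {k l : ℤ} (hk : 0 ≤ k) (hkl : k ≤ l) : q s l ≤ q s k := by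
  induction l, hkl using Int.leInduction with
  | base => exact le_rfl
  | succ l hl ih => exact (q_succ_le hs (hk.trans hl)).trans ih

theorem q_abs (s : ℝ) (k : ℤ) : q s |k| = q s k := by
  rcases abs_choice k with h | h <;> rw [h]
  exact q_neg s k

theorem q_le_of_abs_le {s : ℝ} (hs : 0 ≤ s) {k l : ℤ} (hk : 0 ≤ k) (hkl : k ≤ |l|) :
    q s l ≤ q s k := by
  rw [← q_abs s l]; exact q_anti hs hk hkl

theorem le_q_of_abs_le {s : ℝ} (hs : 0 ≤ s) {k l : ℤ} (hkl : |l| ≤ k) :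
    q s k ≤ q s l := by
  rw [← q_abs s l]; exact q_anti hs (abs_nonneg l) hkl

theorem q_le_zero {s : ℝ} (hs : 0 ≤ s) (k : ℤ) : q s k ≤ q s 0 :=
  q_le_of_abs_le hs le_rfl (abs_nonneg k)

theorem q_rec (s : ℝ) (k : ℤ) : (k : ℝ) * q s k = s * (q s (k - 1) - q s (k + 1)) := by
  have h : (k : ℝ) * egf (fun n => W n k) s =
      s * (egf (fun n => W n (k - 1)) s - egf (fun n => W n (k + 1)) s) := by
    unfold egf
    rw [← (summable_egf (abs_W_le _) s).tsum_sub (summable_egf (abs_W_le _) s), ← tsum_mul_left,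
      ← tsum_mul_left, ((summable_egf (abs_W_le k) s).mul_left (k : ℝ)).tsum_eq_zero_add]
    have h0 : (k : ℝ) * (s ^ 0 / ((Nat.factorial 0 : ℕ) : ℝ) * W 0 k) = 0 := by
      by_cases hk : k = 0 <;> simp [W, hk]
    rw [h0, zero_add]
    refine tsum_congr fun n => ?_
    have h1 := W_rec n k
    have h2 : (((n + 1).factorial : ℕ) : ℝ) = (n + 1 : ℝ) * (n.factorial : ℝ) := by
      rw [Nat.factorial_succ]; push_cast; ring
    have h3 : (n.factorial : ℝ) ≠ 0 := by positivity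
    have h4 : (n + 1 : ℝ) ≠ 0 := by positivity
    calc (k : ℝ) * (s ^ (n + 1) / (((n + 1).factorial : ℕ) : ℝ) * W (n + 1) k)
        = s ^ (n + 1) / (((n + 1).factorial : ℕ) : ℝ) * ((k : ℝ) * W (n + 1) k) := by ring
      _ = _ := by rw [h1, h2]; field_simp; ring
  unfold q
  linear_combination Real.exp (-(2 * s)) * h

theorem hasSum_q {s : ℝ} (hs : 0 ≤ s) : HasSum (q s) 1 := by
  set F : ℕ × ℤ → ℝ := fun nk => s ^ nk.1 / (nk.1.factorial : ℝ) * W nk.1 nk.2 with hF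
  have hF0 : 0 ≤ F := fun nk => mul_nonneg (by positivity) (W_nonneg _ _)
  have hrow : ∀ n, HasSum (fun k => F (n, k)) (s ^ n / (n.factorial : ℝ) * 2 ^ n) :=
    fun n => (hasSum_W n).mul_left _
  have hs2 : Summable fun n => s ^ n / (n.factorial : ℝ) * 2 ^ n :=
    summable_egf (C := 2) (fun n => by simp [abs_of_nonneg]) s
  have hsum : Summable F := by
    rw [summable_prod_of_nonneg hF0]
    refine ⟨fun n => (hrow n).summable, ?_⟩
    simp only [fun n => (hrow n).tsum_eq]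
    exact hs2
  have h1 : HasSum F (Real.exp (2 * s)) := by
    have h2 := hsum.hasSum
    have h3 := h2.prod_fiberwise hrow
    rw [← egf_pow]
    rw [← h3.unique hs2.hasSum |> fun h => h.symm] at h2
    exact h2
  have h4 : HasSum (fun kn : ℤ × ℕ => F kn.swap) (Real.exp (2 * s)) :=
    (Equiv.prodComm ℤ ℕ).hasSum_iff.2 h1
  have h5 : HasSum (fun k => egf (fun n => W n k) s) (Real.exp (2 * s)) :=
    h4.prod_fiberwise fun k => (summable_egf (abs_W_le k) s).hasSum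
  have h6 := h5.mul_left (Real.exp (-(2 * s)))
  rw [← Real.exp_add, neg_add_cancel, Real.exp_zero] at h6
  exact h6

theorem q_zero_le_one {s : ℝ} (hs : 0 ≤ s) : q s 0 ≤ 1 :=
  le_hasSum (hasSum_q hs) 0 fun j _ => q_nonneg hs j

theorem q_two_mul_ge {s : ℝ} (hs : 0 < s) (m : ℕ) :
    q s 0 * (1 - (m : ℝ) ^ 2 / s) ≤ q s (2 * m) := by
  induction m with
  | zero => simp
  | succ m ih =>
    have h1 := q_rec s (2 * m + 1)
    rw [show (2 * (m : ℤ) + 1 - 1) = 2 * m by ring,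
      show (2 * (m : ℤ) + 1 + 1) = 2 * ((m + 1 : ℕ) : ℤ) by push_cast; ring] at h1
    have h2 := q_le_zero hs.le (2 * m + 1)
    have h3 : s * (q s 0 * (1 - ((m + 1 : ℕ) : ℝ) ^ 2 / s)) ≤ s * q s (2 * ((m + 1 : ℕ) : ℤ)) := by
      have h4 := mul_le_mul_of_nonneg_left ih hs.le
      have e1 : s * (q s 0 * (1 - (m : ℝ) ^ 2 / s)) = q s 0 * (s - (m : ℝ) ^ 2) := by field_simp
      have e2 : s * (q s 0 * (1 - ((m + 1 : ℕ) : ℝ) ^ 2 / s)) =
          q s 0 * (s - ((m : ℝ) + 1) ^ 2) := by push_cast; field_simp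
      rw [e1] at h4
      rw [e2]
      push_cast at h1 ⊢
      have h5 : (2 * (m : ℝ) + 1) * q s (2 * m + 1) ≤ (2 * (m : ℝ) + 1) * q s 0 :=
        mul_le_mul_of_nonneg_left h2 (by positivity)
      nlinarith
    exact le_of_mul_le_mul_left h3 hs

theorem q_ge_half {s : ℝ} (hs : 0 < s) {k : ℤ} (hk : 2 * (k : ℝ) ^ 2 ≤ s) :
    q s 0 / 2 ≤ q s k := by
  have h1 := q_two_mul_ge hs k.natAbs
  have h2 : q s (2 * (k.natAbs : ℤ)) ≤ q s k :=
    le_q_of_abs_le hs.le (by rw [Int.natCast_natAbs]; linarith [abs_nonneg k])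
  have h3 : ((k.natAbs : ℕ) : ℝ) ^ 2 = (k : ℝ) ^ 2 := by
    rw [Nat.cast_natAbs, Int.cast_abs, sq_abs]
  rw [h3] at h1
  have h4 : (k : ℝ) ^ 2 / s ≤ 1 / 2 := by rw [div_le_iff₀ hs]; linarith
  have h5 := q_nonneg hs.le 0
  nlinarith

theorem q_zero_sq_le {s : ℝ} (hs : 0 < s) : q s 0 ^ 2 ≤ 8 / s := by
  set K := ⌊Real.sqrt (s / 2)⌋₊ with hK
  have hK1 : (K : ℝ) ≤ Real.sqrt (s / 2) := Nat.floor_le (Real.sqrt_nonneg _)
  have hK2 : Real.sqrt (s / 2) < K + 1 := Nat.lt_floor_add_one _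
  have hsq : Real.sqrt (s / 2) ^ 2 = s / 2 := Real.sq_sqrt (by positivity)
  have h1 : ∑ k ∈ (range (K + 1)).map ⟨((↑) : ℕ → ℤ), Nat.cast_injective⟩, q s k ≤ 1 :=
    sum_le_hasSum _ (fun j _ => q_nonneg hs.le j) (hasSum_q hs.le)
  rw [sum_map] at h1
  have h2 : ∑ k ∈ range (K + 1), q s 0 / 2 ≤ ∑ k ∈ range (K + 1), q s (k : ℤ) := by
    refine sum_le_sum fun k hk => q_ge_half hs ?_
    have hk' : (k : ℝ) ≤ K := by exact_mod_cast Nat.lt_succ_iff.1 (mem_range.1 hk)
    have : (k : ℝ) ^ 2 ≤ Real.sqrt (s / 2) ^ 2 := by gcongr; linarith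
    push_cast; linarith
  rw [sum_const, card_range, nsmul_eq_mul] at h2
  have h3 : ((K : ℝ) + 1) * q s 0 ≤ 2 := by
    have h2' := h2.trans h1
    push_cast at h2'
    linarith
  have h4 := q_nonneg hs.le 0
  have h5 : s / 2 ≤ ((K : ℝ) + 1) ^ 2 := by
    rw [← hsq]; gcongr
  rw [le_div_iff₀ hs]
  have h6 : (((K : ℝ) + 1) * q s 0) ^ 2 ≤ 2 ^ 2 := by gcongr
  nlinarith [sq_nonneg (q s 0)]

theorem q_zero_ge {s : ℝ} (hs : 0 < s) (K : ℕ) :
    1 / 2 ≤ q s 0 * ((K + 1 : ℝ) + 2 * s / (K + 1)) := by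
  have h0 := q_nonneg hs.le
  have h1 := (hasSum_q hs.le).nat_add_neg
  simp only [q_neg] at h1
  have htel : ∀ n : ℕ, ∑ i ∈ range n, ((K : ℝ) + 1 + i) * q s ((K + 1 + i : ℕ) : ℤ) =
      s * (q s K + q s (K + 1) - q s (K + n) - q s (K + n + 1)) := by
    intro n
    induction n with
    | zero => simp
    | succ n ih =>
      rw [sum_range_succ, ih]
      have h2 := q_rec s ((K + 1 + n : ℕ) : ℤ)
      push_cast at h2 ⊢
      rw [show (K : ℤ) + 1 + n - 1 = K + n by ring, show (K : ℤ) + 1 + n + 1 = K + (n + 1) + 1 by ring,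
        show (K : ℤ) + 1 + n = K + n + 1 by ring] at h2
      rw [show (K : ℤ) + (n + 1) = K + n + 1 by ring, show (K : ℤ) + 1 + n = K + n + 1 by ring] at *
      linear_combination h2
  have hbound : ∀ m : ℕ, ∑ i ∈ range m, (q s (i : ℤ) + q s (i : ℤ)) ≤
      2 * (q s 0 * ((K + 1 : ℝ) + 2 * s / (K + 1))) := by
    intro m
    have h3 : ∑ i ∈ range m, q s (i : ℤ) ≤ ∑ i ∈ range (K + 1 + m), q s (i : ℤ) :=
      sum_le_sum_of_subset_of_nonneg (range_subset_range.2 (by omega)) fun i _ _ => h0 _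
    rw [sum_range_add] at h3
    have h4 : ∑ i ∈ range (K + 1), q s (i : ℤ) ≤ (K + 1 : ℝ) * q s 0 := by
      have := sum_le_sum (s := range (K + 1)) (fun (i : ℕ) _ => q_le_zero hs.le (i : ℤ))
      rw [sum_const, card_range, nsmul_eq_mul] at this
      push_cast at this
      exact this
    have hK : (0 : ℝ) < K + 1 := by positivity
    have h5 : (K + 1 : ℝ) * ∑ i ∈ range m, q s ((K + 1 + i : ℕ) : ℤ) ≤ 2 * s * q s 0 := by
      rw [mul_sum]
      calc ∑ i ∈ range m, (K + 1 : ℝ) * q s ((K + 1 + i : ℕ) : ℤ)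
          ≤ ∑ i ∈ range m, ((K : ℝ) + 1 + i) * q s ((K + 1 + i : ℕ) : ℤ) := by
            refine sum_le_sum fun i _ => mul_le_mul_of_nonneg_right ?_ (h0 _)
            have : (0 : ℝ) ≤ i := by positivity
            linarith
        _ ≤ 2 * s * q s 0 := by
            rw [htel]
            have a1 := q_le_zero hs.le K
            have a2 := q_le_zero hs.le (K + 1)
            have a3 := h0 (K + m)
            have a4 := h0 (K + m + 1)
            nlinarith
    have h6 : ∑ i ∈ range m, q s ((K + 1 + i : ℕ) : ℤ) ≤ q s 0 * (2 * s / (K + 1)) := by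
      rw [← mul_div_assoc, le_div_iff₀ hK]; linarith
    rw [sum_add_distrib]
    nlinarith
  have h7 := le_of_tendsto' h1.tendsto_sum_nat hbound
  have := h0 0
  linarith

theorem q_step_decay {s : ℝ} (hs : 0 < s) {ρ : ℕ} {k : ℤ} (hk : (ρ : ℤ) ≤ k) :
    q s (k + 2) * (1 + ρ / s) ≤ q s k := by
  have h1 := q_rec s (k + 1)
  rw [show k + 1 - 1 = k by ring, show k + 1 + 1 = k + 2 by ring] at h1
  have h2 : q s (k + 2) ≤ q s (k + 1) := q_anti hs.le (by omega) (by omega)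
  have h3 := q_nonneg hs.le (k + 2)
  have hk' : (ρ : ℝ) ≤ (k : ℝ) := by exact_mod_cast hk
  have h4 : s * (q s (k + 2) * (1 + ρ / s)) ≤ s * q s k := by
    have e : s * (q s (k + 2) * (1 + ρ / s)) = s * q s (k + 2) + ρ * q s (k + 2) := by field_simp
    rw [e]
    push_cast at h1
    have h5 : (ρ : ℝ) * q s (k + 2) ≤ ((k : ℝ) + 1) * q s (k + 1) :=
      mul_le_mul (by linarith) h2 h3 (by have : (0 : ℝ) ≤ ρ := by positivity
                                         linarith)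
    linarith
  exact le_of_mul_le_mul_left h4 hs

theorem q_block_decay {s : ℝ} (hs : 0 < s) {ρ : ℕ} (hρ : 0 < ρ) {k : ℤ} (hk : (ρ : ℤ) ≤ k) :
    q s (k + 2 * ρ) ≤ q s k * (s / (ρ : ℝ) ^ 2) := by
  have h1 : ∀ i : ℕ, q s (k + 2 * i) * (1 + ρ / s) ^ i ≤ q s k := by
    intro i
    induction i with
    | zero => simp
    | succ i ih =>
      have h2 := q_step_decay hs (ρ := ρ) (k := k + 2 * i) (by omega)
      rw [show k + 2 * ((i + 1 : ℕ) : ℤ) = k + 2 * i + 2 by push_cast; ring, pow_succ']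
      calc q s (k + 2 * i + 2) * ((1 + ρ / s) * (1 + ρ / s) ^ i)
          = (q s (k + 2 * i + 2) * (1 + ρ / s)) * (1 + ρ / s) ^ i := by ring
        _ ≤ q s (k + 2 * i) * (1 + ρ / s) ^ i := by gcongr
        _ ≤ q s k := ih
  have hρ' : (0 : ℝ) < ρ := by exact_mod_cast hρ
  have h2 : 1 + (ρ : ℝ) * (ρ / s) ≤ (1 + ρ / s) ^ ρ :=
    one_add_mul_le_pow (by have : (0 : ℝ) ≤ ρ / s := by positivity
                           linarith) ρ
  have h3 := q_nonneg hs.le (k + 2 * ρ)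
  have h4 : q s (k + 2 * ρ) * ((ρ : ℝ) ^ 2 / s) ≤ q s k := by
    refine le_trans (mul_le_mul_of_nonneg_left ?_ h3) (h1 ρ)
    have : (ρ : ℝ) * (ρ / s) = (ρ : ℝ) ^ 2 / s := by ring
    linarith
  have e : q s (k + 2 * ρ) = q s (k + 2 * ρ) * ((ρ : ℝ) ^ 2 / s) * (s / (ρ : ℝ) ^ 2) := by
    field_simp
  rw [e]
  gcongr

theorem q_decay {s : ℝ} (hs : 0 < s) {ρ : ℕ} (hρ : 0 < ρ) (p : ℕ) :
    q s ((2 * p + 1) * ρ) ≤ q s 0 * (s / (ρ : ℝ) ^ 2) ^ p := by
  induction p with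
  | zero => simpa using q_le_zero hs.le ρ
  | succ p ih =>
    have h1 := q_block_decay hs hρ (k := (2 * p + 1) * ρ) (by nlinarith)
    rw [show (2 * ((p + 1 : ℕ) : ℤ) + 1) * ρ = (2 * p + 1) * ρ + 2 * ρ by push_cast; ring, pow_succ,
      ← mul_assoc]
    refine h1.trans ?_
    gcongr

theorem q_succ_ge {s : ℝ} (hs : 0 < s) (k : ℤ) :
    (1 - (|(k : ℝ)| + 1) / s) * q s k ≤ q s (k + 1) := by
  have h0 := q_nonneg hs.le
  have hfrac : 0 ≤ (|(k : ℝ)| + 1) / s := by positivity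
  rcases le_or_gt 0 k with hk | hk
  · have h1 := q_rec s (k + 1)
    rw [show k + 1 - 1 = k by ring] at h1
    have h2 : q s (k + 1 + 1) ≤ q s (k + 1) := q_succ_le hs.le (by omega)
    have h3 : q s (k + 1) ≤ q s k := q_succ_le hs.le hk
    have hk' : (0 : ℝ) ≤ k := by exact_mod_cast hk
    rw [abs_of_nonneg hk']
    have h4 : s * ((1 - ((k : ℝ) + 1) / s) * q s k) ≤ s * q s (k + 1) := by
      have e : s * ((1 - ((k : ℝ) + 1) / s) * q s k) = s * q s k - ((k : ℝ) + 1) * q s k := by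
        field_simp
      rw [e]
      push_cast at h1
      have h5 : ((k : ℝ) + 1) * q s (k + 1) ≤ ((k : ℝ) + 1) * q s k := by gcongr
      nlinarith
    exact le_of_mul_le_mul_left h4 hs
  · have h1 : q s k ≤ q s (k + 1) := by
      rw [← q_neg s k, ← q_neg s (k + 1)]
      exact q_anti hs.le (by omega) (by omega)
    have := h0 k
    nlinarith

theorem q_pred_ge {s : ℝ} (hs : 0 < s) (k : ℤ) :
    (1 - (|(k : ℝ)| + 1) / s) * q s k ≤ q s (k - 1) := by
  have h := q_succ_ge hs (-k)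
  rw [q_neg, show -k + 1 = -(k - 1) by ring, q_neg] at h
  simpa using h

end Pool.Agent.Lib.MP_a3b629_pr
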