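import Mathlib
import Pool.Agent.Lib.MP_a3b629_pr.Defs
import Pool.Agent.Lib.MP_a3b629_pr.Kernel1D

/-!
The `d`-dimensional continuous-time kernel as a product of one-dimensional kernels, and
pointwise bounds.
-/

set_option autoImplicit false

open Finset Filter Topology MeasureTheory

namespace Pool.Agent.Lib.MP_a3b629_pr

/-- Number of nearest-neighbour walks on `ℤ^d`. -/
noncomputable def WD (d : ℕ) : ℕ → (Fin d → ℤ) → ℝ
  | 0, x => if x = 0 then 1 else 0
  | n + 1, x => ∑ j : Fin d, (WD d n (x - Pi.single j 1) + WD d n (x + Pi.single j 1))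

theorem srw_eq (d : ℕ) : ∀ (n : ℕ) (x : Fin d → ℤ), srw d n x = WD d n x / (2 * d) ^ n
  | 0, x => by simp [srw, WD]
  | n + 1, x => by
    simp only [srw, WD, srw_eq d n, ← add_div, ← sum_div, pow_succ, div_div]

theorem WD_nonneg (d : ℕ) : ∀ (n : ℕ) (x : Fin d → ℤ), 0 ≤ WD d n x
  | 0, x => by unfold WD; split_ifs <;> norm_num
  | n + 1, x => sum_nonneg fun j _ => add_nonneg (WD_nonneg d n _) (WD_nonneg d n _)

theorem WD_le (d : ℕ) : ∀ (n : ℕ) (x : Fin d → ℤ), WD d n x ≤ (2 * d) ^ n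
  | 0, x => by unfold WD; split_ifs <;> norm_num
  | n + 1, x => by
    unfold WD
    calc ∑ j : Fin d, (WD d n (x - Pi.single j 1) + WD d n (x + Pi.single j 1))
        ≤ ∑ _j : Fin d, (((2 * d : ℝ)) ^ n + (2 * d) ^ n) :=
          sum_le_sum fun j _ => add_le_add (WD_le d n _) (WD_le d n _)
      _ = (2 * d) ^ (n + 1) := by simp; ring

theorem abs_WD_le (d : ℕ) (x : Fin d → ℤ) (n : ℕ) : |WD d n x| ≤ (2 * d) ^ n := by
  rw [abs_of_nonneg (WD_nonneg d n x)]; exact WD_le d n x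

theorem srw_nonneg (d n : ℕ) (x : Fin d → ℤ) : 0 ≤ srw d n x := by
  rw [srw_eq]; exact div_nonneg (WD_nonneg d n x) (by positivity)

theorem WD_succ_dim (d : ℕ) : ∀ (n : ℕ) (x : Fin (d + 1) → ℤ),
    WD (d + 1) n x = bc (fun m => W m (x 0)) (fun m => WD d m (Fin.tail x)) n
  | 0, x => by
    rw [bc_zero]
    simp only [WD, W]
    by_cases hx : x = 0
    · subst hx
      have : Fin.tail (0 : Fin (d + 1) → ℤ) = 0 := rfl
      simp [this]
    · rw [if_neg hx]
      by_cases h0 : x 0 = 0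
      · have : Fin.tail x ≠ 0 := by
          intro ht
          apply hx
          funext j
          refine Fin.cases h0 (fun i => congrFun ht i) j
        simp [this]
      · simp [h0]
  | n + 1, x => by
    rw [bc_succ]
    simp only [WD, W]
    rw [Fin.sum_univ_succ]
    simp only [WD_succ_dim d n]
    have a1 : Fin.tail (x - Pi.single 0 1) = Fin.tail x := by
      funext i; simp [Fin.tail]
    have a2 : Fin.tail (x + Pi.single 0 1) = Fin.tail x := by
      funext i; simp [Fin.tail]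
    have a3 : ∀ j : Fin d, Fin.tail (x - Pi.single j.succ 1) = Fin.tail x - Pi.single j 1 := by
      intro j; funext i; simp [Fin.tail, Pi.single_apply]
    have a4 : ∀ j : Fin d, Fin.tail (x + Pi.single j.succ 1) = Fin.tail x + Pi.single j 1 := by
      intro j; funext i; simp [Fin.tail, Pi.single_apply]
    have b1 : (x - Pi.single 0 1 : Fin (d + 1) → ℤ) 0 = x 0 - 1 := by simp
    have b2 : (x + Pi.single 0 1 : Fin (d + 1) → ℤ) 0 = x 0 + 1 := by simp
    have b3 : ∀ j : Fin d, (x - Pi.single j.succ 1 : Fin (d + 1) → ℤ) 0 = x 0 := by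
      intro j; simp
    have b4 : ∀ j : Fin d, (x + Pi.single j.succ 1 : Fin (d + 1) → ℤ) 0 = x 0 := by
      intro j; simp
    simp only [a1, a2, a3, a4, b1, b2, b3, b4]
    unfold bc
    rw [add_comm]
    congr 1
    · simp only [← sum_add_distrib]
      rw [sum_comm]
      refine sum_congr rfl fun ij _ => ?_
      simp only [mul_sum]
      refine sum_congr rfl fun j _ => ?_
      ring
    · simp only [← sum_add_distrib]
      refine sum_congr rfl fun ij _ => ?_
      ring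

theorem egf_WD (s : ℝ) : ∀ (d : ℕ) (x : Fin d → ℤ),
    egf (fun n => WD d n x) s = ∏ j, egf (fun n => W n (x j)) s
  | 0, x => by
    have hx : x = 0 := Subsingleton.elim _ _
    unfold egf
    rw [tsum_eq_single 0]
    · simp [WD, hx]
    · intro n hn
      obtain ⟨m, rfl⟩ := Nat.exists_eq_succ_of_ne_zero hn
      simp [WD]
  | d + 1, x => by
    simp only [WD_succ_dim]
    rw [Fin.prod_univ_succ, egf_bc (abs_W_le _) (abs_WD_le d _), egf_WD s d]
    rfl

/-- The `d`-dimensional continuous-time kernel. -/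
noncomputable def Q {d : ℕ} (s : ℝ) (x : Fin d → ℤ) : ℝ := ∏ j, q s (x j)

theorem Q_eq {d : ℕ} (s : ℝ) (x : Fin d → ℤ) :
    Q s x = Real.exp (-(2 * d * s)) * egf (fun n => WD d n x) s := by
  unfold Q q
  rw [prod_mul_distrib, egf_WD, prod_const, card_univ, Fintype.card_fin, ← Real.exp_nat_mul]
  congr 2
  ring

theorem Q_nonneg {d : ℕ} {s : ℝ} (hs : 0 ≤ s) (x : Fin d → ℤ) : 0 ≤ Q s x :=
  prod_nonneg fun _ _ => q_nonneg hs _

/-- The sup norm on the lattice. -/
def rr {d : ℕ} (x : Fin d → ℤ) : ℕ := univ.sup fun j => (x j).natAbs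

theorem natAbs_le_rr {d : ℕ} (x : Fin d → ℤ) (j : Fin d) : (x j).natAbs ≤ rr x :=
  le_sup (f := fun j => (x j).natAbs) (mem_univ j)

theorem rr_add_le {d : ℕ} (x y : Fin d → ℤ) : rr (x + y) ≤ rr x + rr y :=
  Finset.sup_le fun j _ => (Int.natAbs_add_le _ _).trans
    (add_le_add (natAbs_le_rr x j) (natAbs_le_rr y j))

theorem rr_neg {d : ℕ} (x : Fin d → ℤ) : rr (-x) = rr x := by simp [rr]

/-- One plus the sup norm. -/
noncomputable def om {d : ℕ} (x : Fin d → ℤ) : ℝ := 1 + rr x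

theorem one_le_om {d : ℕ} (x : Fin d → ℤ) : 1 ≤ om x := by
  unfold om; have : (0 : ℝ) ≤ rr x := by positivity
  linarith

theorem om_pos {d : ℕ} (x : Fin d → ℤ) : 0 < om x := lt_of_lt_of_le one_pos (one_le_om x)

theorem abs_le_om {d : ℕ} (x : Fin d → ℤ) (j : Fin d) : |(x j : ℝ)| + 1 ≤ om x := by
  have h := natAbs_le_rr x j
  have h2 : (((x j).natAbs : ℕ) : ℝ) ≤ rr x := by exact_mod_cast h
  rw [Nat.cast_natAbs, Int.cast_abs] at h2
  unfold om; linarith

theorem Q_le_pow {d : ℕ} {s : ℝ} (hs : 0 ≤ s) (x : Fin d → ℤ) : Q s x ≤ q s 0 ^ d := by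
  unfold Q
  calc ∏ j, q s (x j) ≤ ∏ _j : Fin d, q s 0 :=
        prod_le_prod (fun j _ => q_nonneg hs _) fun j _ => q_le_zero hs _
    _ = q s 0 ^ d := by simp

theorem Q_le_rpow {d : ℕ} {s : ℝ} (hs : 0 < s) (x : Fin d → ℤ) :
    Q s x ≤ 3 ^ d * s ^ (-(d : ℝ) / 2) := by
  refine (Q_le_pow hs.le x).trans ?_
  have h1 : q s 0 ≤ 3 * s ^ (-(1 : ℝ) / 2) := by
    have h2 : (3 * s ^ (-(1 : ℝ) / 2)) ^ 2 = 9 / s := by
      rw [mul_pow, ← Real.rpow_natCast (s ^ _), ← Real.rpow_mul hs.le]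
      norm_num
      rw [Real.rpow_neg_one]; ring
    refine (sq_le_sq₀ (q_nonneg hs.le 0) (by positivity)).1 ?_
    rw [h2]
    refine (q_zero_sq_le hs).trans ?_
    gcongr; norm_num
  calc q s 0 ^ d ≤ (3 * s ^ (-(1 : ℝ) / 2)) ^ d := by gcongr; exact q_nonneg hs.le 0
    _ = 3 ^ d * s ^ (-(d : ℝ) / 2) := by
      rw [mul_pow, ← Real.rpow_natCast (s ^ _), ← Real.rpow_mul hs.le]
      congr 2; ring

theorem Q_le_unif {d : ℕ} {s : ℝ} (hs : 0 < s) (x : Fin d → ℤ) :
    Q s x ≤ (6 * (2 * d + 1) / om x) ^ d := by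
  rcases Nat.eq_zero_or_pos d with hd | hd
  · subst hd; simp [Q]
  have hne : (univ : Finset (Fin d)).Nonempty := ⟨⟨0, hd⟩, mem_univ _⟩
  obtain ⟨j, -, hj⟩ := exists_mem_eq_sup univ hne (fun j => (x j).natAbs)
  have hj' : rr x = (x j).natAbs := hj
  set ρ := rr x / (2 * d + 1) with hρ
  have hρ1 : (2 * d + 1) * ρ ≤ rr x := Nat.mul_div_le _ _
  have hρ2 : rr x < (2 * d + 1) * (ρ + 1) := by
    rw [hρ]; exact Nat.lt_mul_div_succ _ (by omega)
  have hom := om_pos x
  have h0 := q_nonneg hs.le 0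
  rcases Nat.eq_zero_or_pos ρ with hρ0 | hρ0
  · refine (Q_le_pow hs.le x).trans ?_
    gcongr
    refine (q_zero_le_one hs.le).trans ?_
    rw [le_div_iff₀ hom]
    have : rr x + 1 ≤ 2 * d + 1 := by rw [hρ0] at hρ2; omega
    have h2 : (rr x : ℝ) + 1 ≤ 2 * d + 1 := by exact_mod_cast this
    have : (0 : ℝ) ≤ d := by positivity
    unfold om; linarith
  · have hρ' : (0 : ℝ) < ρ := by exact_mod_cast hρ0
    have hkey : Q s x ≤ (3 / ρ) ^ d := by
      have hsq : q s 0 ^ 2 ≤ 8 / s := q_zero_sq_le hs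
      refine (sq_le_sq₀ (Q_nonneg hs.le x) (by positivity)).1 ?_
      rcases le_total s ((ρ : ℝ) ^ 2) with hsρ | hsρ
      · have h1 : q s (x j) ≤ q s 0 * (s / (ρ : ℝ) ^ 2) ^ d := by
          refine le_trans (q_le_of_abs_le hs.le (by positivity) ?_) (q_decay hs hρ0 d)
          rw [← Int.natCast_natAbs, ← hj']
          exact_mod_cast hρ1
        have h2 : Q s x ≤ q s 0 ^ d * (s / (ρ : ℝ) ^ 2) ^ d := by
          unfold Q
          rw [← mul_prod_erase univ _ (mem_univ j)]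
          have h3 : ∏ i ∈ univ.erase j, q s (x i) ≤ q s 0 ^ (d - 1) := by
            calc ∏ i ∈ univ.erase j, q s (x i) ≤ ∏ _i ∈ univ.erase j, q s 0 :=
                  prod_le_prod (fun i _ => q_nonneg hs.le _) fun i _ => q_le_zero hs.le _
              _ = q s 0 ^ (d - 1) := by simp
          calc q s (x j) * ∏ i ∈ univ.erase j, q s (x i)
              ≤ (q s 0 * (s / (ρ : ℝ) ^ 2) ^ d) * q s 0 ^ (d - 1) :=
                mul_le_mul h1 h3 (prod_nonneg fun i _ => q_nonneg hs.le _) (by positivity)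
            _ = q s 0 ^ d * (s / (ρ : ℝ) ^ 2) ^ d := by
                obtain ⟨e, rfl⟩ := Nat.exists_eq_succ_of_ne_zero hd.ne'
                simp only [Nat.succ_sub_one, Nat.succ_eq_add_one]; ring
        have h4 : s / (ρ : ℝ) ^ 2 ≤ 1 := by rw [div_le_one (by positivity)]; exact hsρ
        have h5 : 0 ≤ s / (ρ : ℝ) ^ 2 := by positivity
        calc Q s x ^ 2 ≤ (q s 0 ^ d * (s / (ρ : ℝ) ^ 2) ^ d) ^ 2 := by
              gcongr; exact Q_nonneg hs.le x
          _ = (q s 0 ^ 2 * (s / (ρ : ℝ) ^ 2) * (s / (ρ : ℝ) ^ 2)) ^ d := by ring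
          _ ≤ ((8 / s) * (s / (ρ : ℝ) ^ 2) * 1) ^ d := by gcongr
          _ ≤ ((3 / ρ) ^ 2) ^ d := by
              gcongr
              rw [div_pow, mul_one, div_mul_div_cancel₀ hs.ne']
              gcongr; norm_num
          _ = ((3 / ρ) ^ d) ^ 2 := by rw [← pow_mul, ← pow_mul, mul_comm]
      · calc Q s x ^ 2 ≤ (q s 0 ^ d) ^ 2 := by
              gcongr
              · exact Q_nonneg hs.le x
              · exact Q_le_pow hs.le x
          _ = (q s 0 ^ 2) ^ d := by ring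
          _ ≤ ((3 / ρ) ^ 2) ^ d := by
              refine pow_le_pow_left₀ (by positivity) (hsq.trans ?_) d
              rw [div_pow]
              gcongr; norm_num
          _ = ((3 / ρ) ^ d) ^ 2 := by rw [← pow_mul, ← pow_mul, mul_comm]
    refine hkey.trans (pow_le_pow_left₀ (by positivity) ?_ d)
    rw [div_le_div_iff₀ hρ' hom]
    have h6 : rr x + 1 ≤ (2 * d + 1) * (ρ + 1) := hρ2
    have h7 : (rr x : ℝ) + 1 ≤ (2 * d + 1) * (ρ + 1) := by exact_mod_cast h6
    have h8 : (1 : ℝ) ≤ ρ := by exact_mod_cast hρ0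
    have h9 : (0 : ℝ) ≤ d := by positivity
    unfold om
    nlinarith

theorem Q_ge {d : ℕ} (x : Fin d → ℤ) {s : ℝ} (h1 : 2 * om x ^ 2 ≤ s) (h2 : s ≤ 4 * om x ^ 2) :
    (1 / (36 * om x)) ^ d ≤ Q s x := by
  have hom := om_pos x
  have hs : 0 < s := lt_of_lt_of_le (by positivity) h1
  have h3 := q_zero_ge hs (rr x)
  have h4 : ((rr x : ℝ) + 1) = om x := by unfold om; ring
  rw [h4] at h3
  have h5 : 2 * s / om x ≤ 8 * om x := by rw [div_le_iff₀ hom]; nlinarith
  have h0 := q_nonneg hs.le 0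
  have h6 : 1 / (36 * om x) ≤ q s 0 / 2 := by
    rw [div_le_iff₀ (by positivity)]
    nlinarith
  unfold Q
  calc (1 / (36 * om x)) ^ d = ∏ _j : Fin d, (1 / (36 * om x)) := by simp
    _ ≤ ∏ j, q s (x j) := by
      refine prod_le_prod (fun j _ => by positivity) fun j _ => h6.trans (q_ge_half hs ?_)
      have h7 := abs_le_om x j
      have h8 : |(x j : ℝ)| ^ 2 ≤ om x ^ 2 := by gcongr; linarith
      rw [sq_abs] at h8
      linarith

theorem Q_shift_ge {d : ℕ} {s : ℝ} (hs : 0 < s) (x : Fin d → ℤ) (j : Fin d) (e : ℤ)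
    (he : e = 1 ∨ e = -1) : (1 - om x / s) * Q s x ≤ Q s (x + Pi.single j e) := by
  unfold Q
  rw [← mul_prod_erase univ _ (mem_univ j), ← mul_prod_erase univ _ (mem_univ j), ← mul_assoc]
  have h1 : ∏ i ∈ univ.erase j, q s ((x + Pi.single j e : Fin d → ℤ) i) =
      ∏ i ∈ univ.erase j, q s (x i) := by
    refine prod_congr rfl fun i hi => ?_
    simp [Pi.single_eq_of_ne (ne_of_mem_erase hi)]
  rw [h1]
  refine mul_le_mul_of_nonneg_right ?_ (prod_nonneg fun i _ => q_nonneg hs.le _)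
  have h2 : (1 - om x / s) * q s (x j) ≤ (1 - (|(x j : ℝ)| + 1) / s) * q s (x j) := by
    refine mul_le_mul_of_nonneg_right ?_ (q_nonneg hs.le _)
    have := abs_le_om x j
    gcongr
  refine h2.trans ?_
  rcases he with rfl | rfl
  · simpa using q_succ_ge hs (x j)
  · simpa [sub_eq_add_neg] using q_pred_ge hs (x j)

end Pool.Agent.Lib.MP_a3b629_pr
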