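import Mathlib
import Pool.Agent.Lib.MP_a3b629_pr.KernelD

/-!
Iterated Green functions: integral representation, two-sided power bounds and the ratio limit.
-/

set_option autoImplicit false

open Finset Filter Topology MeasureTheory
open scoped ENNReal

namespace Pool.Agent.Lib.MP_a3b629_pr

/-- The series for the `(k+1)`-fold iterated Green function. -/
noncomputable def gE (d k : ℕ) (x : Fin d → ℤ) : ℝ≥0∞ :=
  ∑' m, ENNReal.ofReal (((m + k).choose k : ℝ) * srw d m x)

/-- The normalising constant. -/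
noncomputable def cc (d k : ℕ) : ℝ := (2 * d) ^ (k + 1) / (k.factorial : ℝ)

theorem cc_pos {d : ℕ} (hd : 0 < d) (k : ℕ) : 0 < cc d k := by
  unfold cc
  have : (0 : ℝ) < d := by exact_mod_cast hd
  positivity

theorem lintegral_gamma (n : ℕ) {r : ℝ} (hr : 0 < r) :
    ∫⁻ s in Set.Ioi (0 : ℝ), ENNReal.ofReal (s ^ n * Real.exp (-(r * s))) =
      ENNReal.ofReal ((n.factorial : ℝ) / r ^ (n + 1)) := by
  have h := Real.integral_rpow_mul_exp_neg_mul_Ioi (a := (n + 1 : ℝ)) (by positivity) hr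
  rw [Real.Gamma_nat_eq_factorial] at h
  simp only [add_sub_cancel_right, Real.rpow_natCast] at h
  have h2 : (1 / r) ^ ((n : ℝ) + 1) * (n.factorial : ℝ) = (n.factorial : ℝ) / r ^ (n + 1) := by
    rw [show ((n : ℝ) + 1) = ((n + 1 : ℕ) : ℝ) by push_cast; ring, Real.rpow_natCast, div_pow,
      one_pow]
    field_simp
  rw [h2] at h
  have hint : Integrable (fun s : ℝ => s ^ n * Real.exp (-(r * s))) (volume.restrict (Set.Ioi 0)) :=
    Integrable.of_integral_ne_zero (by rw [h]; positivity)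
  rw [← h, ofReal_integral_eq_lintegral_ofReal hint]
  filter_upwards [ae_restrict_mem measurableSet_Ioi] with s hs
  have : 0 < s := hs
  simp only [Pi.zero_apply]
  positivity

theorem gE_eq {d : ℕ} (hd : 0 < d) (k : ℕ) (x : Fin d → ℤ) :
    gE d k x = ∫⁻ s in Set.Ioi (0 : ℝ), ENNReal.ofReal (cc d k * (s ^ k * Q s x)) := by
  have hd' : (0 : ℝ) < d := by exact_mod_cast hd
  have hc := cc_pos hd k
  have h1 : ∫⁻ s in Set.Ioi (0 : ℝ), ENNReal.ofReal (cc d k * (s ^ k * Q s x)) =
      ∫⁻ s in Set.Ioi (0 : ℝ), ∑' m : ℕ, ENNReal.ofReal (cc d k * WD d m x / (m.factorial : ℝ)) *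
        ENNReal.ofReal (s ^ (m + k) * Real.exp (-(2 * d * s))) := by
    refine setLIntegral_congr_fun measurableSet_Ioi fun s hs => ?_
    have hs' : 0 < s := hs
    rw [Q_eq, egf, ← mul_assoc, ← mul_assoc, ← tsum_mul_left, ENNReal.ofReal_tsum_of_nonneg]
    · refine tsum_congr fun m => ?_
      rw [← ENNReal.ofReal_mul (div_nonneg (mul_nonneg hc.le (WD_nonneg d m x)) (by positivity))]
      congr 1
      rw [pow_add]; ring
    · intro m
      have := WD_nonneg d m x
      positivity
    · exact (summable_egf (abs_WD_le d x) s).mul_left _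
  rw [h1, lintegral_tsum (fun m => by fun_prop)]
  refine tsum_congr fun m => ?_
  rw [lintegral_const_mul' _ _ ENNReal.ofReal_ne_top, lintegral_gamma _ (by positivity),
    ← ENNReal.ofReal_mul (div_nonneg (mul_nonneg hc.le (WD_nonneg d m x)) (by positivity))]
  congr 1
  rw [srw_eq, cc]
  have h2 : (((m + k).factorial : ℕ) : ℝ) =
      ((m + k).choose k : ℝ) * (m.factorial : ℝ) * (k.factorial : ℝ) := by
    rw [← Nat.add_choose_mul_factorial_mul_factorial m k]; push_cast; ring
  rw [h2]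
  field_simp
  ring

theorem lintegral_Ioc_le {d : ℕ} (hd : 0 < d) (k : ℕ) (x : Fin d → ℤ) {T : ℝ} (hT : 0 < T) :
    ∫⁻ s in Set.Ioc (0 : ℝ) T, ENNReal.ofReal (cc d k * (s ^ k * Q s x)) ≤
      ENNReal.ofReal (cc d k * (T ^ (k + 1) * (6 * (2 * d + 1) / om x) ^ d)) := by
  have hc := cc_pos hd k
  have hom := om_pos x
  calc ∫⁻ s in Set.Ioc (0 : ℝ) T, ENNReal.ofReal (cc d k * (s ^ k * Q s x))
      ≤ ∫⁻ _s in Set.Ioc (0 : ℝ) T,
          ENNReal.ofReal (cc d k * (T ^ k * (6 * (2 * d + 1) / om x) ^ d)) := by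
        refine setLIntegral_mono' measurableSet_Ioc fun s hs => ENNReal.ofReal_le_ofReal ?_
        have h1 := Q_le_unif hs.1 x
        have h2 := Q_nonneg hs.1.le x
        have h3 := hs.1.le
        have h4 := hs.2
        gcongr
    _ = _ := by
        rw [setLIntegral_const, Real.volume_Ioc, ← ENNReal.ofReal_mul (by positivity)]
        congr 1; ring

theorem Ioi_subset_union (T : ℝ) : Set.Ioi (0 : ℝ) ⊆ Set.Ioc 0 T ∪ Set.Ioi T := by
  intro s hs
  rcases le_or_gt s T with h | h
  · exact Or.inl ⟨hs, h⟩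
  · exact Or.inr h

theorem gE_le {d k : ℕ} (hk : 2 * (k + 1) < d) :
    ∃ C : ℝ, 0 < C ∧ ∀ x : Fin d → ℤ,
      gE d k x ≤ ENNReal.ofReal (C / om x ^ (d - 2 * (k + 1))) := by
  have hd : 0 < d := by omega
  have hc := cc_pos hd k
  obtain ⟨e, he⟩ : ∃ e, d = e + 2 * (k + 1) := ⟨d - 2 * (k + 1), by omega⟩
  have he0 : 0 < e := by omega
  have he' : (0 : ℝ) < e := by exact_mod_cast he0
  have hde : d - 2 * (k + 1) = e := by omega
  have hdr : (d : ℝ) = e + 2 * (k + 1) := by rw [he]; push_cast; ring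
  refine ⟨cc d k * (6 * (2 * d + 1)) ^ d + cc d k * 3 ^ d * (2 / e), by positivity, fun x => ?_⟩
  have hom := om_pos x
  have hT : 0 < om x ^ 2 := by positivity
  rw [gE_eq hd, hde]
  refine (lintegral_mono_set (Ioi_subset_union (om x ^ 2))).trans
    ((lintegral_union_le _ _ _).trans ?_)
  have h1 := lintegral_Ioc_le hd k x hT
  set a : ℝ := k - d / 2 with ha
  have ha1 : a + 1 = -(e / 2) := by rw [ha, hdr]; ring
  have ha2 : a < -1 := by linarith
  have h2 : ∫⁻ s in Set.Ioi (om x ^ 2), ENNReal.ofReal (cc d k * (s ^ k * Q s x)) ≤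
      ENNReal.ofReal (cc d k * 3 ^ d * (2 / e) / om x ^ e) := by
    calc ∫⁻ s in Set.Ioi (om x ^ 2), ENNReal.ofReal (cc d k * (s ^ k * Q s x))
        ≤ ∫⁻ s in Set.Ioi (om x ^ 2), ENNReal.ofReal (cc d k * 3 ^ d * s ^ a) := by
          refine setLIntegral_mono' measurableSet_Ioi fun s hs => ENNReal.ofReal_le_ofReal ?_
          have hs0 : 0 < s := hT.trans hs
          have h3 := Q_le_rpow hs0 x
          calc cc d k * (s ^ k * Q s x) ≤ cc d k * (s ^ k * (3 ^ d * s ^ (-(d : ℝ) / 2))) := by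
                gcongr
            _ = cc d k * 3 ^ d * (s ^ (k : ℝ) * s ^ (-(d : ℝ) / 2)) := by
                rw [Real.rpow_natCast]; ring
            _ = cc d k * 3 ^ d * s ^ a := by
                rw [← Real.rpow_add hs0, ha]; congr 2; ring
      _ = ENNReal.ofReal (∫ s in Set.Ioi (om x ^ 2), cc d k * 3 ^ d * s ^ a) := by
          rw [ofReal_integral_eq_lintegral_ofReal
            ((integrableOn_Ioi_rpow_of_lt ha2 hT).const_mul _)]
          filter_upwards [ae_restrict_mem measurableSet_Ioi] with s hs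
          have hs0 : 0 < s := hT.trans hs
          simp only [Pi.zero_apply]
          positivity
      _ = _ := by
          rw [integral_const_mul, integral_Ioi_rpow_of_lt ha2 hT, ha1, ← Real.rpow_natCast (om x) 2,
            ← Real.rpow_mul hom.le]
          rw [show ((2 : ℕ) : ℝ) * -((e : ℝ) / 2) = -(e : ℝ) by push_cast; ring,
            Real.rpow_neg hom.le, Real.rpow_natCast]
          congr 1
          field_simp
  refine (add_le_add h1 h2).trans ?_
  rw [← ENNReal.ofReal_add (by positivity) (by positivity)]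
  refine ENNReal.ofReal_le_ofReal (le_of_eq ?_)
  have h4 : om x ^ d = om x ^ e * (om x ^ 2) ^ (k + 1) := by
    rw [← pow_mul, ← pow_add, ← he]
  rw [div_pow, h4]
  field_simp

theorem gE_ge {d k : ℕ} (hk : 2 * (k + 1) < d) :
    ∃ c : ℝ, 0 < c ∧ ∀ x : Fin d → ℤ,
      ENNReal.ofReal (c / om x ^ (d - 2 * (k + 1))) ≤ gE d k x := by
  have hd : 0 < d := by omega
  have hc := cc_pos hd k
  obtain ⟨e, he⟩ : ∃ e, d = e + 2 * (k + 1) := ⟨d - 2 * (k + 1), by omega⟩
  have hde : d - 2 * (k + 1) = e := by omega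
  refine ⟨cc d k * 2 ^ (k + 1) / 36 ^ d, by positivity, fun x => ?_⟩
  have hom := om_pos x
  have hT : 0 < om x ^ 2 := by positivity
  rw [gE_eq hd, hde]
  have hsub : Set.Ioc (2 * om x ^ 2) (4 * om x ^ 2) ⊆ Set.Ioi (0 : ℝ) := fun s hs =>
    lt_trans (by positivity) hs.1
  refine le_trans ?_ (lintegral_mono_set hsub)
  calc ENNReal.ofReal (cc d k * 2 ^ (k + 1) / 36 ^ d / om x ^ e)
      = ∫⁻ _s in Set.Ioc (2 * om x ^ 2) (4 * om x ^ 2),
          ENNReal.ofReal (cc d k * ((2 * om x ^ 2) ^ k * (1 / (36 * om x)) ^ d)) := by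
        rw [setLIntegral_const, Real.volume_Ioc, ← ENNReal.ofReal_mul (by positivity)]
        congr 1
        have h4 : om x ^ d = om x ^ e * (om x ^ 2) ^ (k + 1) := by
          rw [← pow_mul, ← pow_add, ← he]
        rw [div_pow, mul_pow 36, h4, mul_pow]
        field_simp
        ring
    _ ≤ _ := by
        refine setLIntegral_mono' measurableSet_Ioc fun s hs => ENNReal.ofReal_le_ofReal ?_
        have h1 := Q_ge x hs.1.le hs.2
        have h2 := hs.1.le
        have h3 : 0 ≤ s := le_trans (by positivity) h2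
        gcongr

theorem gE_shift {d : ℕ} (hd : 0 < d) (k : ℕ) (x : Fin d → ℤ) (j : Fin d) (e : ℤ)
    (he : e = 1 ∨ e = -1) {δ : ℝ} (hδ : 0 < δ) (hδ1 : δ ≤ 1) :
    ENNReal.ofReal (1 - δ) * gE d k x ≤ gE d k (x + Pi.single j e) +
      ENNReal.ofReal (cc d k * ((om x / δ) ^ (k + 1) * (6 * (2 * d + 1) / om x) ^ d)) := by
  have hc := cc_pos hd k
  have hom := om_pos x
  have hT : 0 < om x / δ := by positivity
  rw [gE_eq hd, gE_eq hd]
  have h1 := lintegral_Ioc_le hd k x hT
  have h2 : ENNReal.ofReal (1 - δ) *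
      ∫⁻ s in Set.Ioi (om x / δ), ENNReal.ofReal (cc d k * (s ^ k * Q s x)) ≤
      ∫⁻ s in Set.Ioi (0 : ℝ), ENNReal.ofReal (cc d k * (s ^ k * Q s (x + Pi.single j e))) := by
    refine le_trans ?_ (lintegral_mono_set (Set.Ioi_subset_Ioi hT.le))
    rw [← lintegral_const_mul' _ _ ENNReal.ofReal_ne_top]
    refine setLIntegral_mono' measurableSet_Ioi fun s hs => ?_
    rw [← ENNReal.ofReal_mul (by linarith)]
    refine ENNReal.ofReal_le_ofReal ?_
    have hs0 : 0 < s := hT.trans hs
    have h3 := Q_shift_ge hs0 x j e he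
    have h4 : om x / s ≤ δ := by
      have : om x / δ < s := hs
      rw [div_lt_iff₀ hδ] at this
      rw [div_le_iff₀ hs0]; linarith
    have h5 := Q_nonneg hs0.le x
    have h6 : (1 - δ) * Q s x ≤ Q s (x + Pi.single j e) :=
      le_trans (mul_le_mul_of_nonneg_right (by linarith) h5) h3
    calc (1 - δ) * (cc d k * (s ^ k * Q s x)) = cc d k * (s ^ k * ((1 - δ) * Q s x)) := by ring
      _ ≤ _ := by gcongr
  have h3 : ENNReal.ofReal (1 - δ) ≤ 1 := ENNReal.ofReal_le_one.2 (by linarith)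
  calc ENNReal.ofReal (1 - δ) * ∫⁻ s in Set.Ioi (0 : ℝ), ENNReal.ofReal (cc d k * (s ^ k * Q s x))
      ≤ ENNReal.ofReal (1 - δ) *
        ((∫⁻ s in Set.Ioc (0 : ℝ) (om x / δ), ENNReal.ofReal (cc d k * (s ^ k * Q s x))) +
          ∫⁻ s in Set.Ioi (om x / δ), ENNReal.ofReal (cc d k * (s ^ k * Q s x))) := by
        gcongr
        exact (lintegral_mono_set (Ioi_subset_union _)).trans (lintegral_union_le _ _ _)
    _ ≤ _ := by
        rw [mul_add, add_comm]
        refine add_le_add h2 ?_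
        calc _ ≤ 1 * ENNReal.ofReal
              (cc d k * ((om x / δ) ^ (k + 1) * (6 * (2 * d + 1) / om x) ^ d)) := by gcongr
          _ = _ := one_mul _

theorem gE_ne_top {d k : ℕ} (hk : 2 * (k + 1) < d) (x : Fin d → ℤ) : gE d k x ≠ ⊤ := by
  obtain ⟨C, -, hC⟩ := gE_le hk
  exact ne_top_of_le_ne_top ENNReal.ofReal_ne_top (hC x)

/-- The real-valued iterated Green function. -/
noncomputable def gR (d k : ℕ) (x : Fin d → ℤ) : ℝ := (gE d k x).toReal

theorem gR_ge {d k : ℕ} (hk : 2 * (k + 1) < d) :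
    ∃ c : ℝ, 0 < c ∧ ∀ x : Fin d → ℤ, c / om x ^ (d - 2 * (k + 1)) ≤ gR d k x := by
  obtain ⟨c, hc, h⟩ := gE_ge hk
  exact ⟨c, hc, fun x => (ENNReal.ofReal_le_iff_le_toReal (gE_ne_top hk x)).1 (h x)⟩

theorem gR_pos {d k : ℕ} (hk : 2 * (k + 1) < d) (x : Fin d → ℤ) : 0 < gR d k x := by
  obtain ⟨c, hc, h⟩ := gR_ge hk
  have := om_pos x
  exact lt_of_lt_of_le (by positivity) (h x)

theorem mem_box {d : ℕ} {x : Fin d → ℤ} {R : ℕ} (h : rr x ≤ R) :
    x ∈ Fintype.piFinset fun _ : Fin d => Finset.Icc (-(R : ℤ)) R := by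
  rw [Fintype.mem_piFinset]
  intro j
  have := (natAbs_le_rr x j).trans h
  rw [Finset.mem_Icc]
  omega

theorem card_box (d R : ℕ) :
    (Fintype.piFinset fun _ : Fin d => Finset.Icc (-(R : ℤ)) R).card = (2 * R + 1) ^ d := by
  rw [Fintype.card_piFinset]
  simp only [Int.card_Icc, prod_const, card_univ, Fintype.card_fin]
  congr 1
  omega

theorem tendsto_rr (d : ℕ) : Tendsto (rr : (Fin d → ℤ) → ℕ) cofinite atTop := by
  rw [tendsto_atTop]
  intro R
  rw [eventually_cofinite]
  refine (Fintype.piFinset fun _ : Fin d => Finset.Icc (-(R : ℤ)) R).finite_toSet.subset ?_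
  intro x hx
  exact mem_box (le_of_lt (not_le.1 hx))

theorem tendsto_om (d : ℕ) : Tendsto (om : (Fin d → ℤ) → ℝ) cofinite atTop :=
  tendsto_atTop_add_const_left _ 1 (tendsto_natCast_atTop_atTop.comp (tendsto_rr d))

theorem eventually_shift_ge {d k : ℕ} (hk : 2 * (k + 1) < d) (j : Fin d) (e : ℤ)
    (he : e = 1 ∨ e = -1) {η : ℝ} (hη : 0 < η) (hη1 : η ≤ 1) :
    ∀ᶠ x in cofinite, (1 - η) * gR d k x ≤ gR d k (x + Pi.single j e) := by
  have hd : 0 < d := by omega
  have hc := cc_pos hd k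
  obtain ⟨c, hc0, hge⟩ := gR_ge hk
  obtain ⟨f, hf⟩ : ∃ f, d = f + 2 * (k + 1) := ⟨d - 2 * (k + 1), by omega⟩
  have hde : d - 2 * (k + 1) = f := by omega
  rw [hde] at hge
  set K := cc d k * (6 * (2 * d + 1)) ^ d / (η / 2) ^ (k + 1) with hK
  have hK0 : 0 < K := by positivity
  filter_upwards [(tendsto_om d).eventually_ge_atTop (K / (η / 2 * c))] with x hx
  have hom := om_pos x
  have hom1 := one_le_om x
  have h1 := gE_shift hd k x j e he (δ := η / 2) (by positivity) (by linarith)
  have h2 := ENNReal.toReal_mono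
    (ENNReal.add_ne_top.2 ⟨gE_ne_top hk _, ENNReal.ofReal_ne_top⟩) h1
  rw [ENNReal.toReal_mul, ENNReal.toReal_ofReal (by linarith),
    ENNReal.toReal_add (gE_ne_top hk _) ENNReal.ofReal_ne_top,
    ENNReal.toReal_ofReal (by positivity)] at h2
  have h3 : cc d k * ((om x / (η / 2)) ^ (k + 1) * (6 * (2 * d + 1) / om x) ^ d) =
      K / om x ^ (k + 1) / om x ^ f := by
    have h4 : om x ^ d = om x ^ f * om x ^ (k + 1) * om x ^ (k + 1) := by
      rw [← pow_add, ← pow_add]; congr 1; omega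
    rw [hK, div_pow, div_pow (6 * _), h4]
    field_simp
  have h5 : K / om x ^ (k + 1) ≤ η / 2 * c := by
    rw [div_le_iff₀ (by positivity)]
    rw [div_le_iff₀ (by positivity)] at hx
    have h6 : om x ≤ om x ^ (k + 1) := le_self_pow₀ hom1 (by omega)
    have h7 : 0 < η / 2 * c := by positivity
    nlinarith
  have h8 : K / om x ^ (k + 1) / om x ^ f ≤ η / 2 * gR d k x := by
    calc K / om x ^ (k + 1) / om x ^ f ≤ η / 2 * c / om x ^ f := by gcongr
      _ = η / 2 * (c / om x ^ f) := by ring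
      _ ≤ _ := by gcongr; exact hge x
  rw [h3] at h2
  unfold gR at *
  linarith

theorem tendsto_add_right_cofinite {d : ℕ} (y : Fin d → ℤ) :
    Tendsto (fun x : Fin d → ℤ => x + y) cofinite cofinite :=
  (add_left_injective y).tendsto_cofinite

theorem tendsto_ratio_single {d k : ℕ} (hk : 2 * (k + 1) < d) (j : Fin d) (e : ℤ)
    (he : e = 1 ∨ e = -1) :
    Tendsto (fun x => gR d k (x + Pi.single j e) / gR d k x) cofinite (𝓝 1) := by
  rw [tendsto_order]
  constructor
  · intro a ha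
    have hη : 0 < min ((1 - a) / 2) 1 := lt_min (by linarith) one_pos
    filter_upwards [eventually_shift_ge hk j e he hη (min_le_right _ _)] with x hx
    have h1 := gR_pos hk x
    rw [lt_div_iff₀ h1]
    have h2 := min_le_left ((1 - a) / 2) 1
    nlinarith
  · intro b hb
    have he' : -e = 1 ∨ -e = -1 := by omega
    have hη : 0 < (b - 1) / (2 * b) := by
      have : 0 < b - 1 := by linarith
      positivity
    have hη1 : (b - 1) / (2 * b) ≤ 1 := by rw [div_le_one (by positivity)]; linarith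
    filter_upwards [(tendsto_add_right_cofinite (Pi.single j e)).eventually
      (eventually_shift_ge hk j (-e) he' hη hη1)] with x hx
    have h0 : x + Pi.single j e + Pi.single j (-e) = x := by
      rw [add_assoc, ← Pi.single_add]; simp
    rw [h0] at hx
    have h1 := gR_pos hk x
    have h2 := gR_pos hk (x + Pi.single j e)
    rw [div_lt_iff₀ h1]
    have h3 : (1 - (b - 1) / (2 * b)) = (b + 1) / (2 * b) := by field_simp; ring
    rw [h3, div_mul_eq_mul_div, div_le_iff₀ (by positivity)] at hx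
    nlinarith

theorem tendsto_ratio {d k : ℕ} (hk : 2 * (k + 1) < d) (y : Fin d → ℤ) :
    Tendsto (fun x => gR d k (x + y) / gR d k x) cofinite (𝓝 1) := by
  let S : AddSubmonoid (Fin d → ℤ) :=
    { carrier := {y | Tendsto (fun x => gR d k (x + y) / gR d k x) cofinite (𝓝 1)}
      zero_mem' := by
        show Tendsto (fun x => gR d k (x + 0) / gR d k x) cofinite (𝓝 1)
        simp only [add_zero, div_self (gR_pos hk _).ne']
        exact tendsto_const_nhds
      add_mem' := by
        intro a b ha hb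
        show Tendsto (fun x => gR d k (x + (a + b)) / gR d k x) cofinite (𝓝 1)
        have h1 : Tendsto (fun x => gR d k (x + a + b) / gR d k (x + a)) cofinite (𝓝 1) :=
          Tendsto.comp hb (tendsto_add_right_cofinite a)
        have h2 := h1.mul ha
        rw [mul_one] at h2
        refine h2.congr fun x => ?_
        rw [div_mul_div_cancel₀ (gR_pos hk _).ne', add_assoc] }
  have hsingle : ∀ (j : Fin d) (n : ℤ), (Pi.single j n : Fin d → ℤ) ∈ S := by
    intro j n
    induction n using Int.induction_on with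
    | zero => simp
    | succ n ih =>
      rw [Pi.single_add]
      exact S.add_mem ih (tendsto_ratio_single hk j 1 (Or.inl rfl))
    | pred n ih =>
      rw [sub_eq_add_neg, Pi.single_add]
      exact S.add_mem ih (tendsto_ratio_single hk j (-1) (Or.inr rfl))
  have : y ∈ S := by
    rw [← Finset.univ_sum_single y]
    exact S.sum_mem fun j _ => hsingle j _
  exact this

end Pool.Agent.Lib.MP_a3b629_pr
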