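import Mathlib
import Pool.Agent.Lib.MP_a3b629_pr.Green

/-!
Convolution identities for the transition probabilities and the iterated Green functions,
and the estimate on far-apart pairs of hits.
-/

set_option autoImplicit false

open Finset Filter Topology MeasureTheory
open scoped ENNReal

namespace Pool.Agent.Lib.MP_a3b629_pr

/-- Transition probabilities with values in `ℝ≥0∞`. -/
noncomputable def pE (d n : ℕ) (x : Fin d → ℤ) : ℝ≥0∞ := ENNReal.ofReal (srw d n x)

theorem pE_zero (d : ℕ) (x : Fin d → ℤ) : pE d 0 x = if x = 0 then 1 else 0 := by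
  unfold pE srw
  split_ifs <;> simp

theorem pE_succ {d : ℕ} (hd : 0 < d) (n : ℕ) (x : Fin d → ℤ) : pE d (n + 1) x =
    (2 * d : ℝ≥0∞)⁻¹ * ∑ j : Fin d, (pE d n (x - Pi.single j 1) + pE d n (x + Pi.single j 1)) := by
  have hd' : (0 : ℝ) < d := by exact_mod_cast hd
  unfold pE
  rw [srw, ENNReal.ofReal_div_of_pos (by positivity), ENNReal.ofReal_sum_of_nonneg
    (fun j _ => add_nonneg (srw_nonneg _ _ _) (srw_nonneg _ _ _)), div_eq_mul_inv, mul_comm]
  congr 1
  · rw [ENNReal.ofReal_mul (by norm_num)]; simp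
  · exact sum_congr rfl fun j _ => ENNReal.ofReal_add (srw_nonneg _ _ _) (srw_nonneg _ _ _)

theorem pE_ne_top (d n : ℕ) (x : Fin d → ℤ) : pE d n x ≠ ⊤ := ENNReal.ofReal_ne_top

theorem pE_add {d : ℕ} (hd : 0 < d) (m : ℕ) : ∀ (n : ℕ) (x : Fin d → ℤ),
    pE d (m + n) x = ∑' y, pE d m y * pE d n (x - y)
  | 0, x => by
    rw [tsum_eq_single x]
    · simp [pE_zero]
    · intro y hy
      have : x - y ≠ 0 := sub_ne_zero.2 hy.symm
      simp [pE_zero, this]
  | n + 1, x => by
    rw [← add_assoc, pE_succ hd]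
    simp only [pE_add hd m n, pE_succ hd, ← ENNReal.tsum_add]
    rw [← Summable.tsum_finsetSum (fun _ _ => ENNReal.summable), ← ENNReal.tsum_mul_left]
    refine tsum_congr fun y => ?_
    rw [mul_left_comm]
    congr 1
    rw [mul_sum]
    refine sum_congr rfl fun j _ => ?_
    rw [mul_add, sub_right_comm, add_sub_right_comm]

theorem srw_neg (d : ℕ) : ∀ (n : ℕ) (x : Fin d → ℤ), srw d n (-x) = srw d n x
  | 0, x => by simp [srw]
  | n + 1, x => by
    simp only [srw]
    congr 1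
    refine sum_congr rfl fun j _ => ?_
    rw [show -x - Pi.single j 1 = -(x + Pi.single j 1) by abel,
      show -x + Pi.single j 1 = -(x - Pi.single j 1) by abel, srw_neg d n, srw_neg d n, add_comm]

theorem pE_neg (d n : ℕ) (x : Fin d → ℤ) : pE d n (-x) = pE d n x := by
  unfold pE; rw [srw_neg]

theorem rr_single_le {d : ℕ} (j : Fin d) : rr (Pi.single j 1 : Fin d → ℤ) ≤ 1 := by
  refine Finset.sup_le fun i _ => ?_
  by_cases h : i = j
  · subst h; simp
  · simp [Pi.single_eq_of_ne h]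

theorem pE_eq_zero {d : ℕ} (hd : 0 < d) : ∀ (n : ℕ) (x : Fin d → ℤ), n < rr x → pE d n x = 0
  | 0, x, h => by
    have : x ≠ 0 := by
      rintro rfl
      simp [rr] at h
    simp [pE_zero, this]
  | n + 1, x, h => by
    rw [pE_succ hd, sum_eq_zero, mul_zero]
    intro j _
    have h0 := rr_single_le j
    have h1 := rr_add_le (x - Pi.single j 1) (Pi.single j 1)
    have h2 := rr_add_le (x + Pi.single j 1) (-Pi.single j 1)
    rw [sub_add_cancel] at h1
    rw [add_neg_cancel_right, rr_neg] at h2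
    rw [pE_eq_zero hd n _ (by omega), pE_eq_zero hd n _ (by omega), add_zero]

theorem tsum_pE {d : ℕ} (hd : 0 < d) : ∀ n : ℕ, ∑' x, pE d n x = 1
  | 0 => by simp [pE_zero]
  | n + 1 => by
    simp only [pE_succ hd]
    rw [ENNReal.tsum_mul_left, Summable.tsum_finsetSum (fun _ _ => ENNReal.summable)]
    have h : ∀ j : Fin d, ∑' x : Fin d → ℤ,
        (pE d n (x - Pi.single j 1) + pE d n (x + Pi.single j 1)) = 2 := by
      intro j
      have a1 : ∑' x : Fin d → ℤ, pE d n (x - Pi.single j 1) = 1 :=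
        ((Equiv.subRight (Pi.single j 1 : Fin d → ℤ)).tsum_eq (pE d n)).trans (tsum_pE hd n)
      have a2 : ∑' x : Fin d → ℤ, pE d n (x + Pi.single j 1) = 1 :=
        ((Equiv.addRight (Pi.single j 1 : Fin d → ℤ)).tsum_eq (pE d n)).trans (tsum_pE hd n)
      rw [ENNReal.tsum_add, a1, a2]
      norm_num
    simp only [h, sum_const, card_univ, Fintype.card_fin, nsmul_eq_mul]
    rw [mul_comm (d : ℝ≥0∞) 2]
    exact ENNReal.inv_mul_cancel (by simp; omega) (ENNReal.mul_ne_top (by simp) (by simp))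

theorem tsum_fin_succ (k : ℕ) (F : ℕ → ℝ≥0∞) :
    ∑' n : Fin (k + 1) → ℕ, F (∑ i, n i) = ∑' a : ℕ, ∑' n : Fin k → ℕ, F (a + ∑ i, n i) := by
  rw [← (Fin.consEquiv fun _ : Fin (k + 1) => ℕ).tsum_eq, ENNReal.tsum_prod']
  refine tsum_congr fun a => tsum_congr fun n => ?_
  simp [Fin.consEquiv, Fin.sum_univ_succ]

theorem tsum_fin_choose : ∀ (k : ℕ) (F : ℕ → ℝ≥0∞),
    ∑' n : Fin (k + 1) → ℕ, F (∑ i, n i) = ∑' m : ℕ, ((m + k).choose k : ℝ≥0∞) * F m
  | 0, F => by
    rw [tsum_fin_succ]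
    simp
  | k + 1, F => by
    rw [tsum_fin_succ]
    have h1 : ∀ a : ℕ, ∑' n : Fin (k + 1) → ℕ, F (a + ∑ i, n i) =
        ∑' m : ℕ, ((m + k).choose k : ℝ≥0∞) * F (a + m) := fun a =>
      tsum_fin_choose k (fun m => F (a + m))
    simp only [h1]
    rw [← ENNReal.tsum_prod (f := fun a m : ℕ => ((m + k).choose k : ℝ≥0∞) * F (a + m)),
      ← (Finset.HasAntidiagonal.sigmaAntidiagonalEquivProd (A := ℕ)).tsum_eq, ENNReal.tsum_sigma']
    refine tsum_congr fun l => ?_
    rw [tsum_fintype]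
    have h2 : ∑ b : antidiagonal l, ((b.1.2 + k).choose k : ℝ≥0∞) * F (b.1.1 + b.1.2) =
        ∑ b ∈ antidiagonal l, ((b.2 + k).choose k : ℝ≥0∞) * F (b.1 + b.2) :=
      Finset.sum_coe_sort (antidiagonal l) (fun b => ((b.2 + k).choose k : ℝ≥0∞) * F (b.1 + b.2))
    refine h2.trans ?_
    rw [sum_congr rfl (g := fun b => ((b.2 + k).choose k : ℝ≥0∞) * F l)
      (fun b hb => by rw [mem_antidiagonal.1 hb]), ← sum_mul]
    congr 1
    rw [← Nat.cast_sum, ← Nat.sum_antidiagonal_swap, Nat.sum_antidiagonal_eq_sum_range_succ_mk]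
    simp only [Prod.snd_swap]
    rw [Nat.sum_range_add_choose l k, add_assoc]

/-- The Green function of a sum of independent walks indexed by `ι`. -/
noncomputable def gI (d : ℕ) (ι : Type) [Fintype ι] (x : Fin d → ℤ) : ℝ≥0∞ :=
  ∑' n : ι → ℕ, pE d (∑ i, n i) x

theorem gI_congr (d : ℕ) {ι κ : Type} [Fintype ι] [Fintype κ] (e : ι ≃ κ) (x : Fin d → ℤ) :
    gI d ι x = gI d κ x := by
  unfold gI
  rw [← (Equiv.arrowCongr e (Equiv.refl ℕ)).tsum_eq]
  refine tsum_congr fun n => ?_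
  congr 1
  simp only [Equiv.arrowCongr_apply, Equiv.coe_refl, Function.comp, id]
  exact (Equiv.sum_comp e.symm n).symm

theorem gI_fin_succ (d k : ℕ) (x : Fin d → ℤ) : gI d (Fin (k + 1)) x = gE d k x := by
  unfold gI gE
  rw [tsum_fin_choose k (fun m => pE d m x)]
  refine tsum_congr fun m => ?_
  rw [ENNReal.ofReal_mul (by positivity), ENNReal.ofReal_natCast, pE]

theorem gI_fin_zero (d : ℕ) (x : Fin d → ℤ) : gI d (Fin 0) x = if x = 0 then 1 else 0 := by
  simp [gI, pE_zero]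

theorem gI_neg (d : ℕ) (ι : Type) [Fintype ι] (x : Fin d → ℤ) : gI d ι (-x) = gI d ι x := by
  simp [gI, pE_neg]

theorem gI_le {d : ℕ} (ι : Type) [Fintype ι] (hk : 2 * Fintype.card ι < d) :
    ∃ C : ℝ, 0 < C ∧ ∀ x : Fin d → ℤ,
      gI d ι x ≤ ENNReal.ofReal (C / om x ^ (d - 2 * Fintype.card ι)) := by
  simp only [gI_congr d (Fintype.equivFin ι)]
  generalize Fintype.card ι = k at hk ⊢
  cases k with
  | zero =>
    refine ⟨1, one_pos, fun x => ?_⟩
    rw [gI_fin_zero]
    split_ifs with h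
    · subst h
      have : rr (0 : Fin d → ℤ) = 0 := Nat.eq_zero_of_le_zero (Finset.sup_le fun j _ => by simp)
      simp [om, this]
    · exact zero_le
  | succ k =>
    simp only [gI_fin_succ]
    exact gE_le hk

theorem gI_fin_conv {d : ℕ} (hd : 0 < d) (k : ℕ) (x : Fin d → ℤ) :
    gI d (Fin (k + 1)) x = ∑' y, gI d (Fin k) y * ∑' a, pE d a (x - y) := by
  unfold gI
  rw [tsum_fin_succ k (fun m => pE d m x), ENNReal.tsum_comm]
  simp only [← ENNReal.tsum_mul_right]
  rw [ENNReal.tsum_comm (f := fun y (n : Fin k → ℕ) => pE d (∑ i, n i) y * ∑' a, pE d a (x - y))]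
  refine tsum_congr fun n => ?_
  simp only [← ENNReal.tsum_mul_left]
  rw [ENNReal.tsum_comm]
  refine tsum_congr fun a => ?_
  rw [add_comm, pE_add hd]

theorem greenConv_eq {d : ℕ} : ∀ (k : ℕ), 2 * k < d → ∀ x : Fin d → ℤ,
    greenConv d k x = (gI d (Fin k) x).toReal
  | 0, _, x => by
    rw [gI_fin_zero, greenConv]
    split_ifs <;> simp
  | k + 1, hk, x => by
    have hd : 0 < d := by omega
    have h1 : ∀ y : Fin d → ℤ, green d y = (∑' a, pE d a y).toReal := by
      intro y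
      rw [ENNReal.tsum_toReal_eq (fun a => pE_ne_top d a y)]
      exact tsum_congr fun a => (ENNReal.toReal_ofReal (srw_nonneg d a y)).symm
    have h2 : ∀ y : Fin d → ℤ, ∑' a, pE d a y ≠ ⊤ := by
      intro y
      have := gE_ne_top (d := d) (k := 0) (by omega) y
      simpa [gE, pE] using this
    have h3 : ∀ y : Fin d → ℤ, gI d (Fin k) y ≠ ⊤ := by
      intro y
      obtain ⟨C, -, hC⟩ := gI_le (d := d) (Fin k) (by simp; omega)
      exact ne_top_of_le_ne_top ENNReal.ofReal_ne_top (hC y)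
    rw [gI_fin_conv hd, ENNReal.tsum_toReal_eq (fun y => ENNReal.mul_ne_top (h3 y) (h2 _)), greenConv]
    refine tsum_congr fun y => ?_
    rw [ENNReal.toReal_mul, greenConv_eq k (by omega), h1]

end Pool.Agent.Lib.MP_a3b629_pr
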