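import Mathlib
import Pool.Agent.Lib.MP_a3b629_pr.Conv

/-!
Convolution of the iterated Green function with a rapidly decaying weight.
-/

set_option autoImplicit false

open Finset Filter Topology MeasureTheory
open scoped ENNReal

namespace Pool.Agent.Lib.MP_a3b629_pr

theorem ball_sum {d k : ℕ} (hk : 2 * (k + 1) < d) {η : ℝ} (hη : 0 < η) :
    ∀ᶠ y : Fin d → ℤ in cofinite,
      ∑' w, (if rr w ≤ rr y then gE d k w else 0) ≤ ENNReal.ofReal (η * om y ^ d) := by
  obtain ⟨C, hC, hle⟩ := gE_le hk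
  obtain ⟨ρ, hρ⟩ := exists_nat_ge (C * 2 ^ d / (η / 2))
  have hd : d ≠ 0 := by omega
  filter_upwards [(tendsto_om d).eventually_ge_atTop (C * (2 * ρ + 1) ^ d / (η / 2))] with y hy
  have hom := om_pos y
  have hom1 := one_le_om y
  set B₁ := Fintype.piFinset fun _ : Fin d => Finset.Icc (-(ρ : ℤ)) ρ with hB₁
  set B₂ := Fintype.piFinset fun _ : Fin d => Finset.Icc (-(rr y : ℤ)) (rr y) with hB₂
  have h1 : ∀ w, (if rr w ≤ rr y then gE d k w else 0) ≤
      (if w ∈ B₁ then ENNReal.ofReal C else 0) +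
        (if w ∈ B₂ then ENNReal.ofReal (C / (1 + ρ)) else 0) := by
    intro w
    have hw1 := one_le_om w
    split_ifs with a1 a2 a3 a4
    · refine le_add_right ((hle w).trans (ENNReal.ofReal_le_ofReal ?_))
      exact div_le_self hC.le (one_le_pow₀ hw1)
    · exact absurd (mem_box a1) a3
    · rw [zero_add]
      refine (hle w).trans (ENNReal.ofReal_le_ofReal ?_)
      have b1 : ρ < rr w := by
        by_contra hh
        exact a2 (mem_box (not_lt.1 hh))
      have b2 : (ρ : ℝ) ≤ rr w := by exact_mod_cast b1.le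
      have b3 : om w ≤ om w ^ (d - 2 * (k + 1)) := le_self_pow₀ hw1 (by omega)
      have b4 : 1 + (ρ : ℝ) ≤ om w := by unfold om; linarith
      gcongr
      linarith
    · exact absurd (mem_box a1) a4
    all_goals exact zero_le
  refine (ENNReal.tsum_le_tsum h1).trans ?_
  rw [ENNReal.tsum_add, tsum_eq_sum (s := B₁) (fun w hw => if_neg hw),
    tsum_eq_sum (s := B₂) (fun w hw => if_neg hw),
    sum_congr rfl (fun w hw => if_pos hw), sum_congr rfl (fun w hw => if_pos hw), sum_const,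
    sum_const, hB₁, hB₂, card_box, card_box, nsmul_eq_mul, nsmul_eq_mul,
    ← ENNReal.ofReal_natCast, ← ENNReal.ofReal_natCast, ← ENNReal.ofReal_mul (by positivity),
    ← ENNReal.ofReal_mul (by positivity), ← ENNReal.ofReal_add (by positivity) (by positivity)]
  refine ENNReal.ofReal_le_ofReal ?_
  push_cast
  have e1 : (2 * (ρ : ℝ) + 1) ^ d * C ≤ η / 2 * om y ^ d := by
    rw [div_le_iff₀ (by positivity)] at hy
    have : om y ≤ om y ^ d := le_self_pow₀ hom1 hd
    nlinarith
  have e2 : (2 * (rr y : ℝ) + 1) ^ d * (C / (1 + ρ)) ≤ η / 2 * om y ^ d := by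
    have a1 : (2 * (rr y : ℝ) + 1) ^ d ≤ (2 * om y) ^ d := by
      gcongr; unfold om; linarith
    have a2 : 2 ^ d * (C / (1 + ρ)) ≤ η / 2 := by
      rw [div_le_iff₀ (by positivity)] at hρ
      rw [← mul_div_assoc, div_le_iff₀ (by positivity)]
      nlinarith
    calc (2 * (rr y : ℝ) + 1) ^ d * (C / (1 + ρ)) ≤ (2 * om y) ^ d * (C / (1 + ρ)) := by gcongr
      _ = (2 ^ d * (C / (1 + ρ))) * om y ^ d := by rw [mul_pow]; ring
      _ ≤ _ := by gcongr
  linarith

theorem conv_bound {d k : ℕ} (hk : 2 * (k + 1) < d) :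
    ∃ C : ℝ, 0 < C ∧ ∀ (h : (Fin d → ℤ) → ℝ≥0∞) (D : ℝ), 0 < D →
      (∀ x, h x ≤ ENNReal.ofReal (D / om x ^ (d + (d - 2 * (k + 1))))) → ∀ ε : ℝ, 0 < ε →
      ∀ᶠ y : Fin d → ℤ in cofinite, ∑' x, gE d k (y - x) * h x ≤
        (ENNReal.ofReal C * ∑' x, h x + ENNReal.ofReal ε) * gE d k y := by
  obtain ⟨C, hC, hle⟩ := gE_le hk
  obtain ⟨c, hc, hge⟩ := gE_ge hk
  set f := d - 2 * (k + 1) with hf
  refine ⟨C * 2 ^ f / c, by positivity, fun h D hD hh ε hε => ?_⟩
  filter_upwards [ball_sum hk (η := ε * c / (D * 2 ^ (d + f))) (by positivity)] with y hy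
  have hom := om_pos y
  have h1 : ∀ x, gE d k (y - x) * h x ≤ ENNReal.ofReal (C * 2 ^ f / c) * gE d k y * h x +
      (if rr (y - x) ≤ rr y then gE d k (y - x) else 0) *
        ENNReal.ofReal (D * 2 ^ (d + f) / om y ^ (d + f)) := by
    intro x
    have hx := om_pos x
    have hyx := om_pos (y - x)
    by_cases hc1 : rr y ≤ 2 * rr (y - x)
    · refine le_add_right ?_
      gcongr
      have a1 : om y ≤ 2 * om (y - x) := by
        have : (rr y : ℝ) ≤ 2 * rr (y - x) := by exact_mod_cast hc1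
        unfold om; linarith
      calc gE d k (y - x) ≤ ENNReal.ofReal (C / om (y - x) ^ f) := hle _
        _ ≤ ENNReal.ofReal (C * 2 ^ f / c * (c / om y ^ f)) := by
            refine ENNReal.ofReal_le_ofReal ?_
            have a2 : om y ^ f ≤ 2 ^ f * om (y - x) ^ f := by rw [← mul_pow]; gcongr
            rw [div_mul_div_cancel₀ hc.ne', div_le_div_iff₀ (by positivity) (by positivity)]
            nlinarith
        _ ≤ _ := by
            rw [ENNReal.ofReal_mul (by positivity)]
            gcongr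
            exact hge y
    · refine le_add_left ?_
      rw [if_pos (by omega)]
      gcongr
      refine (hh x).trans (ENNReal.ofReal_le_ofReal ?_)
      have a0 := rr_add_le x (y - x)
      rw [add_sub_cancel] at a0
      have a1 : om y ≤ 2 * om x := by
        have : rr y ≤ 2 * rr x := by omega
        have : (rr y : ℝ) ≤ 2 * rr x := by exact_mod_cast this
        unfold om; linarith
      have a2 : om y ^ (d + f) ≤ 2 ^ (d + f) * om x ^ (d + f) := by rw [← mul_pow]; gcongr
      rw [div_le_div_iff₀ (by positivity) (by positivity)]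
      nlinarith
  refine (ENNReal.tsum_le_tsum h1).trans ?_
  rw [ENNReal.tsum_add, ENNReal.tsum_mul_left, ENNReal.tsum_mul_right, add_mul, mul_right_comm]
  refine add_le_add le_rfl ?_
  have h2 : ∑' x, (if rr (y - x) ≤ rr y then gE d k (y - x) else 0) =
      ∑' w, (if rr w ≤ rr y then gE d k w else 0) :=
    (Equiv.subLeft y).tsum_eq (fun w => if rr w ≤ rr y then gE d k w else 0)
  rw [h2]
  calc (∑' w, (if rr w ≤ rr y then gE d k w else 0)) *
        ENNReal.ofReal (D * 2 ^ (d + f) / om y ^ (d + f))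
      ≤ ENNReal.ofReal (ε * c / (D * 2 ^ (d + f)) * om y ^ d) *
        ENNReal.ofReal (D * 2 ^ (d + f) / om y ^ (d + f)) := by gcongr
    _ = ENNReal.ofReal ε * ENNReal.ofReal (c / om y ^ f) := by
        rw [← ENNReal.ofReal_mul (by positivity), ← ENNReal.ofReal_mul (by positivity)]
        congr 1
        rw [pow_add (om y)]
        field_simp
    _ ≤ _ := by gcongr; exact hge y

theorem om_le_mul {d : ℕ} (x b : Fin d → ℤ) : om x ≤ om b * om (b + x) := by
  have h := rr_add_le (-b) (b + x)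
  rw [neg_add_cancel_left, rr_neg] at h
  have h' : (rr x : ℝ) ≤ rr b + rr (b + x) := by exact_mod_cast h
  have h1 : (0 : ℝ) ≤ rr b := by positivity
  have h2 : (0 : ℝ) ≤ rr (b + x) := by positivity
  unfold om
  nlinarith

/-- The two partial sums of a tuple along a sign pattern. -/
def sT {N : ℕ} (σ : Fin N → Bool) (l : Fin N → ℕ) : ℕ := ∑ i, if σ i then l i else 0

/-- The complementary partial sum. -/
def sF {N : ℕ} (σ : Fin N → Bool) (l : Fin N → ℕ) : ℕ := ∑ i, if σ i then 0 else l i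

theorem sT_add_sF {N : ℕ} (σ : Fin N → Bool) (l : Fin N → ℕ) : sT σ l + sF σ l = ∑ i, l i := by
  unfold sT sF
  rw [← sum_add_distrib]
  refine sum_congr rfl fun i _ => ?_
  split_ifs <;> simp

theorem pair_bound {d k : ℕ} (hk : 2 * (k + 1) < d) (σ : Fin (k + 1) → Bool) (b : Fin d → ℤ) :
    ∃ D : ℝ, 0 < D ∧ ∀ x : Fin d → ℤ,
      ∑' l : Fin (k + 1) → ℕ, pE d (sT σ l) x * pE d (sF σ l) (b + x) ≤
        ENNReal.ofReal (D / om x ^ (d + (d - 2 * (k + 1)))) := by
  have hcard : Fintype.card {i // σ i = true} + Fintype.card {i // ¬ σ i = true} = k + 1 := by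
    rw [Fintype.card_subtype_compl, Fintype.card_fin]
    have : Fintype.card {i // σ i = true} ≤ k + 1 := by
      simpa using Fintype.card_subtype_le (fun i => σ i = true)
    omega
  obtain ⟨C₁, hC₁, h₁⟩ := gI_le (d := d) {i // σ i = true} (by omega)
  obtain ⟨C₂, hC₂, h₂⟩ := gI_le (d := d) {i // ¬ σ i = true} (by omega)
  set j₁ := Fintype.card {i // σ i = true}
  set j₂ := Fintype.card {i // ¬ σ i = true}
  have hb := om_pos b
  refine ⟨C₁ * C₂ * om b ^ (d - 2 * j₂), by positivity, fun x => ?_⟩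
  have hx := om_pos x
  have hbx := om_pos (b + x)
  have e : ∑' l : Fin (k + 1) → ℕ, pE d (sT σ l) x * pE d (sF σ l) (b + x) =
      gI d {i // σ i = true} x * gI d {i // ¬ σ i = true} (b + x) := by
    unfold gI
    rw [← ENNReal.tsum_mul_right]
    simp only [← ENNReal.tsum_mul_left]
    rw [← ENNReal.tsum_prod (f := fun (n : {i // σ i = true} → ℕ) (m : {i // ¬ σ i = true} → ℕ) =>
      pE d (∑ i, n i) x * pE d (∑ i, m i) (b + x)),
      ← (Equiv.piEquivPiSubtypeProd (fun i => σ i = true) (fun _ => ℕ)).tsum_eq]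
    refine tsum_congr fun l => ?_
    have a1 : sT σ l = ∑ i : {i // σ i = true}, l i := by
      unfold sT
      rw [← sum_filter, sum_subtype (p := fun i => σ i = true)]
      simp
    have a2 : sF σ l = ∑ i : {i // ¬ σ i = true}, l i := by
      unfold sF
      simp only [← ite_not (σ _ = true)]
      rw [← sum_filter, sum_subtype (p := fun i => ¬ σ i = true)]
      simp
    rw [a1, a2]
    rfl
  rw [e]
  refine (mul_le_mul' (h₁ x) (h₂ (b + x))).trans ?_
  rw [← ENNReal.ofReal_mul (by positivity)]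
  refine ENNReal.ofReal_le_ofReal ?_
  have a3 : d + (d - 2 * (k + 1)) = (d - 2 * j₁) + (d - 2 * j₂) := by omega
  have a4 : om x ^ (d - 2 * j₂) ≤ om b ^ (d - 2 * j₂) * om (b + x) ^ (d - 2 * j₂) := by
    rw [← mul_pow]; gcongr; exact om_le_mul x b
  rw [a3, pow_add, div_mul_div_comm, div_le_div_iff₀ (by positivity) (by positivity)]
  calc C₁ * C₂ * (om x ^ (d - 2 * j₁) * om x ^ (d - 2 * j₂))
      ≤ C₁ * C₂ * (om x ^ (d - 2 * j₁) * (om b ^ (d - 2 * j₂) * om (b + x) ^ (d - 2 * j₂))) := by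
        gcongr
    _ = _ := by ring

theorem pair_sum {d : ℕ} (hd : 0 < d) (s t : ℕ) (b : Fin d → ℤ) :
    ∑' x, pE d s x * pE d t (b + x) = pE d (s + t) b := by
  rw [pE_add hd, ← (Equiv.neg (Fin d → ℤ)).tsum_eq]
  refine tsum_congr fun x => ?_
  simp [pE_neg, sub_eq_add_neg]

end Pool.Agent.Lib.MP_a3b629_pr
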