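import Mathlib
import Pool.Agent.Lib.MP_a3b629_pr.Conv

/-!
Independence bookkeeping for an i.i.d. family of steps.
-/

set_option autoImplicit false
set_option linter.unusedSectionVars false

open Finset Filter Topology MeasureTheory ProbabilityTheory
open scoped ENNReal

namespace Pool.Agent.Lib.MP_a3b629_pr

/-- The property `φ` depends only on the coordinates in `S`. -/
def Dep {ι G : Type} (φ : (ι → G) → Prop) (S : Finset ι) : Prop :=
  ∀ f g : ι → G, (∀ i ∈ S, f i = g i) → φ f → φ g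

/-- An i.i.d. family of steps of simple random walk. -/
structure Steps {Ω : Type*} [MeasurableSpace Ω] (P : Measure Ω) {ι : Type} {d : ℕ}
    (X : ι → Ω → Fin d → ℤ) : Prop where
  meas : ∀ i, Measurable (X i)
  ind : iIndepFun X P
  law : ∀ i, P.map (X i) = stepLaw d

variable {Ω : Type*} [MeasurableSpace Ω] {P : Measure Ω} {ι : Type} [DecidableEq ι] {d : ℕ}
  {X : ι → Ω → Fin d → ℤ}

theorem Dep.eq_preimage {φ : (ι → Fin d → ℤ) → Prop} {S : Finset ι} (h : Dep φ S) :
    {ω | φ fun i => X i ω} = (fun ω (i : S) => X i ω) ⁻¹'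
      {f | φ fun i => if hi : i ∈ S then f ⟨i, hi⟩ else 0} := by
  ext ω
  simp only [Set.mem_ofPred_eq, Set.mem_preimage]
  constructor
  · exact h _ _ fun i hi => by simp [hi]
  · exact h _ _ fun i hi => by simp [hi]

theorem Steps.meas_dep (hX : Steps P X) {φ : (ι → Fin d → ℤ) → Prop} {S : Finset ι}
    (h : Dep φ S) : MeasurableSet {ω | φ fun i => X i ω} := by
  rw [h.eq_preimage]
  exact (measurable_pi_lambda _ fun i : S => hX.meas i) MeasurableSet.of_discrete

theorem Steps.indep_dep (hX : Steps P X) {φ ψ : (ι → Fin d → ℤ) → Prop} {S T : Finset ι}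
    (hST : Disjoint S T) (hφ : Dep φ S) (hψ : Dep ψ T) :
    P ({ω | φ fun i => X i ω} ∩ {ω | ψ fun i => X i ω}) =
      P {ω | φ fun i => X i ω} * P {ω | ψ fun i => X i ω} := by
  rw [hφ.eq_preimage, hψ.eq_preimage]
  exact (hX.ind.indepFun_finset S T hST hX.meas).measure_inter_preimage_eq_mul _ _
    MeasurableSet.of_discrete MeasurableSet.of_discrete

theorem Steps.decomp (hX : Steps P X) {F : (ι → Fin d → ℤ) → Fin d → ℤ}
    {ψ : (Fin d → ℤ) → (ι → Fin d → ℤ) → Prop} {S T : Finset ι} (hST : Disjoint S T)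
    (hF : ∀ y, Dep (fun f => F f = y) S) (hψ : ∀ y, Dep (ψ y) T) :
    P {ω | ψ (F fun i => X i ω) fun i => X i ω} =
      ∑' y, P {ω | F (fun i => X i ω) = y} * P {ω | ψ y fun i => X i ω} := by
  have h1 : {ω | ψ (F fun i => X i ω) fun i => X i ω} =
      ⋃ y, ({ω | F (fun i => X i ω) = y} ∩ {ω | ψ y fun i => X i ω}) := by
    ext ω
    simp only [Set.mem_ofPred_eq, Set.mem_iUnion, Set.mem_inter_iff]
    constructor
    · intro h; exact ⟨_, rfl, h⟩
    · rintro ⟨y, rfl, h⟩; exact h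
  rw [h1, measure_iUnion]
  · exact tsum_congr fun y => hX.indep_dep hST (hF y) (hψ y)
  · intro y y' hyy
    refine Set.disjoint_left.2 fun ω h1 h2 => hyy ?_
    exact h1.1.symm.trans h2.1
  · exact fun y => (hX.meas_dep (hF y)).inter (hX.meas_dep (hψ y))

theorem Steps.law_single (hX : Steps P X) (hd : 0 < d) (i : ι) (β : Fin d → ℤ) :
    P {ω | X i ω = β} = pE d 1 β := by
  have h1 : P {ω | X i ω = β} = P.map (X i) {β} := by
    rw [Measure.map_apply (hX.meas i) (measurableSet_singleton β)]; rfl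
  rw [h1, hX.law, stepLaw, pE_succ hd]
  simp only [Measure.smul_apply, smul_eq_mul, Measure.finsetSum_apply, Measure.add_apply,
    Measure.dirac_apply, pE_zero, Set.indicator_apply, Set.mem_singleton_iff, Pi.one_apply,
    sub_eq_zero, add_eq_zero_iff_eq_neg, eq_comm (a := β)]

theorem dep_sum (S : Finset ι) (y : Fin d → ℤ) :
    Dep (fun f : ι → Fin d → ℤ => ∑ i ∈ S, f i = y) S := by
  intro f g hfg h
  rw [← h]
  exact sum_congr rfl fun i hi => (hfg i hi).symm

theorem Steps.law_sum (hX : Steps P X) (hd : 0 < d) (S : Finset ι) :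
    ∀ α : Fin d → ℤ, P {ω | ∑ i ∈ S, X i ω = α} = pE d S.card α := by
  have := hX.ind.isProbabilityMeasure
  induction S using Finset.induction_on with
  | empty =>
    intro α
    simp only [sum_empty, card_empty, pE_zero]
    split_ifs with h
    · simp [h]
    · have : {ω : Ω | (0 : Fin d → ℤ) = α} = ∅ := by
        ext ω; simpa using fun h' => h h'.symm
      rw [this, measure_empty]
  | insert j S hj ih =>
    intro α
    have h1 := hX.decomp (F := fun f => f j) (ψ := fun y f => ∑ i ∈ S, f i = α - y)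
      (S := {j}) (T := S) (by simpa using hj)
      (fun y f g hfg h => by rw [← h]; exact (hfg j (mem_singleton_self j)).symm)
      (fun y => dep_sum S _)
    have h2 : {ω | ∑ i ∈ insert j S, X i ω = α} = {ω | ∑ i ∈ S, X i ω = α - X j ω} := by
      ext ω
      simp only [Set.mem_ofPred_eq, sum_insert hj]
      exact ⟨fun h => by rw [← h]; abel, fun h => by rw [h]; abel⟩
    rw [h2, h1, card_insert_of_notMem hj, add_comm, pE_add hd]
    exact tsum_congr fun y => by rw [hX.law_single hd, ih]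

theorem Steps.sum_decomp (hX : Steps P X) (hd : 0 < d)
    {ψ : (Fin d → ℤ) → (ι → Fin d → ℤ) → Prop} {S T : Finset ι} (hST : Disjoint S T)
    (hψ : ∀ y, Dep (ψ y) T) :
    P {ω | ψ (∑ i ∈ S, X i ω) fun i => X i ω} =
      ∑' y, pE d S.card y * P {ω | ψ y fun i => X i ω} := by
  rw [hX.decomp (F := fun f => ∑ i ∈ S, f i) hST (dep_sum S) hψ]
  exact tsum_congr fun y => by rw [hX.law_sum hd]

theorem Steps.stationary (hX : Steps P X) {κ : Type} [Fintype κ] {e : κ → ι}
    (he : Function.Injective e) (φ : (κ → Fin d → ℤ) → Prop) :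
    P {ω | φ fun k => X (e k) ω} = Measure.pi (fun _ : κ => stepLaw d) {f | φ f} := by
  have h1 := (hX.ind.precomp he).map_fun_eq_pi_map (fun k => (hX.meas (e k)).aemeasurable)
  simp only [hX.law] at h1
  rw [← h1, Measure.map_apply (measurable_pi_lambda _ fun k => hX.meas (e k))
    MeasurableSet.of_discrete]
  rfl

theorem Steps.triple (hX : Steps P X) (hd : 0 < d) {I₀ I₁ I₂ : Finset ι}
    (h01 : Disjoint I₀ I₁) (h02 : Disjoint I₀ I₂) (h12 : Disjoint I₁ I₂) (y b : Fin d → ℤ) :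
    P {ω | ∑ i ∈ I₀, X i ω + ∑ i ∈ I₁, X i ω = y ∧ ∑ i ∈ I₀, X i ω + ∑ i ∈ I₂, X i ω = b + y} =
      ∑' x, pE d I₀.card (y - x) * (pE d I₁.card x * pE d I₂.card (b + x)) := by
  have h1 := hX.sum_decomp hd (S := I₀) (T := I₁ ∪ I₂)
    (ψ := fun w f => ∑ i ∈ I₁, f i = y - w ∧ ∑ i ∈ I₂, f i = b + (y - w))
    (disjoint_union_right.2 ⟨h01, h02⟩)
    (fun w f g hfg h => ⟨dep_sum I₁ _ f g (fun i hi => hfg i (mem_union_left _ hi)) h.1,
      dep_sum I₂ _ f g (fun i hi => hfg i (mem_union_right _ hi)) h.2⟩)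
  have h2 : {ω | ∑ i ∈ I₀, X i ω + ∑ i ∈ I₁, X i ω = y ∧
      ∑ i ∈ I₀, X i ω + ∑ i ∈ I₂, X i ω = b + y} =
      {ω | ∑ i ∈ I₁, X i ω = y - ∑ i ∈ I₀, X i ω ∧
        ∑ i ∈ I₂, X i ω = b + (y - ∑ i ∈ I₀, X i ω)} := by
    ext ω
    simp only [Set.mem_ofPred_eq]
    constructor
    · rintro ⟨a1, a2⟩
      exact ⟨by rw [← a1]; abel, by rw [← add_sub_assoc, ← a2]; abel⟩
    · rintro ⟨a1, a2⟩
      exact ⟨by rw [a1]; abel, by rw [a2]; abel⟩
  rw [h2, h1, ← (Equiv.subLeft y).tsum_eq]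
  refine tsum_congr fun x => ?_
  simp only [Equiv.subLeft_apply, sub_sub_cancel]
  congr 1
  rw [← hX.law_sum hd, ← hX.law_sum hd]
  exact hX.indep_dep h12 (dep_sum I₁ x) (dep_sum I₂ (b + x))

end Pool.Agent.Lib.MP_a3b629_pr
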