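import Mathlib
import Pool.Agent.Lib.MP_a3b629_pr.Prob
import Pool.Agent.Lib.MP_a3b629_pr.Far

/-!
First-hit decomposition along the lexicographic order of time tuples.
-/

set_option autoImplicit false
set_option linter.unusedSectionVars false

open Finset Filter Topology MeasureTheory ProbabilityTheory
open scoped ENNReal

namespace Pool.Agent.Lib.MP_a3b629_pr

variable {N : ℕ}

/-- The block of step indices `(i, j)` with `k i ≤ j < k i + u i`. -/
def blk (k u : Fin N → ℕ) : Finset (Fin N × ℕ) :=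
  (univ.sigma fun i => range (u i)).map
    ⟨fun p => (p.1, k p.1 + p.2), by
      rintro ⟨i, j⟩ ⟨i', j'⟩ h
      simp only [Prod.mk.injEq] at h
      obtain ⟨rfl, h⟩ := h
      have : j = j' := by omega
      rw [this]⟩

theorem mem_blk {k u : Fin N → ℕ} {p : Fin N × ℕ} :
    p ∈ blk k u ↔ k p.1 ≤ p.2 ∧ p.2 < k p.1 + u p.1 := by
  obtain ⟨i, j⟩ := p
  simp only [blk, Finset.mem_map, mem_sigma, mem_univ, mem_range, true_and,
    Function.Embedding.coeFn_mk, Prod.mk.injEq]
  constructor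
  · rintro ⟨⟨i', j'⟩, h, rfl, rfl⟩
    simp only at h ⊢
    omega
  · rintro ⟨h1, h2⟩
    exact ⟨⟨i, j - k i⟩, by simp only; omega, rfl, by simp only; omega⟩

theorem sum_blk {G : Type} [AddCommMonoid G] (k u : Fin N → ℕ) (f : Fin N × ℕ → G) :
    ∑ p ∈ blk k u, f p = ∑ i, ∑ j ∈ range (u i), f (i, k i + j) := by
  rw [blk, sum_map, sum_sigma]
  rfl

theorem card_blk (k u : Fin N → ℕ) : (blk k u).card = ∑ i, u i := by
  simp [blk]

/-- Position of the sum of the walks at the time tuple `n`. -/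
def pos {G : Type} [AddCommMonoid G] (f : Fin N × ℕ → G) (n : Fin N → ℕ) : G :=
  ∑ i, ∑ j ∈ range (n i), f (i, j)

theorem pos_eq {G : Type} [AddCommMonoid G] (f : Fin N × ℕ → G) (n : Fin N → ℕ) :
    pos f n = ∑ p ∈ blk 0 n, f p := by
  simp [pos, sum_blk]

theorem pos_add {G : Type} [AddCommMonoid G] (f : Fin N × ℕ → G) (k u : Fin N → ℕ) :
    pos f (k + u) = ∑ p ∈ blk 0 k, f p + ∑ p ∈ blk k u, f p := by
  simp [pos, sum_blk, sum_range_add, sum_add_distrib]

theorem disjoint_blk (k u : Fin N → ℕ) : Disjoint (blk 0 k) (blk k u) := by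
  refine disjoint_left.2 fun p h1 h2 => ?_
  rw [mem_blk] at h1 h2
  simp only [Pi.zero_apply] at h1
  omega

theorem tsum_fsum {α β : Type} (s : Finset α) (f : α → β → ℝ≥0∞) :
    ∑' b, ∑ a ∈ s, f a b = ∑ a ∈ s, ∑' b, f a b :=
  Summable.tsum_finsetSum (fun _ _ => ENNReal.summable)

theorem tsum_split (c : Fin N → ℕ) (f : (Fin N → ℕ) → ℝ≥0∞) :
    ∑' n, f n = ∑' k, f (k + c) + ∑' n, if ∀ i, c i ≤ n i then 0 else f n := by
  have h1 : ∑' k, f (k + c) = ∑' n, if ∀ i, c i ≤ n i then f n else 0 := by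
    rw [← (add_left_injective c).tsum_eq (f := fun n => if ∀ i, c i ≤ n i then f n else 0)]
    · exact tsum_congr fun k => by simp
    · intro n hn
      have : c ≤ n := by
        by_contra h
        exact hn (if_neg h)
      exact ⟨n - c, tsub_add_cancel_of_le this⟩
  rw [h1, ← ENNReal.tsum_add]
  exact tsum_congr fun n => by split_ifs <;> simp

variable {Ω : Type*} [MeasurableSpace Ω] {P : Measure Ω} {d : ℕ}
  (X : Fin N × ℕ → Ω → Fin d → ℤ) (A : Finset (Fin d → ℤ))

/-- Hit at the time tuple `n`. -/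
def Hn (z : Fin d → ℤ) (n : Fin N → ℕ) : Set Ω := {ω | z + pos (fun p => X p ω) n ∈ A}

/-- First hit, in the lexicographic order, at the time tuple `n`. -/
def First (z : Fin d → ℤ) (n : Fin N → ℕ) : Set Ω :=
  Hn X A z n ∩ ⋂ n' : Fin N → ℕ, ⋂ _ : toLex n' < toLex n, (Hn X A z n')ᶜ

/-- The local version of the first-hit condition. -/
def loc (M : ℕ) (k : Fin N → ℕ) (y : Fin d → ℤ) (f : Fin N × ℕ → Fin d → ℤ) : Prop :=
  y + ∑ p ∈ blk k (fun _ => M), f p ∈ A ∧ ∀ t : Fin N → ℕ, (∀ i, t i ≤ 2 * M) →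
    toLex t < toLex (fun _ => M : Fin N → ℕ) → y + ∑ p ∈ blk k t, f p ∉ A

/-- First hit within a window. -/
def Ew (M : ℕ) (z : Fin d → ℤ) (k : Fin N → ℕ) : Set Ω :=
  {ω | loc A M k (z + ∑ p ∈ blk 0 k, X p ω) fun p => X p ω}

/-- The coordinatewise distance of two time tuples. -/
def dif (n n' : Fin N → ℕ) : Fin N → ℕ := fun i => (n i - n' i) + (n' i - n i)

open Classical in
/-- Expected number of pairs of hits whose time difference satisfies `Φ`. -/
noncomputable def Err (P : Measure Ω) (Φ : (Fin N → ℕ) → Prop) (z : Fin d → ℤ) : ℝ≥0∞ :=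
  ∑' n, ∑' n', if Φ (dif n n') then P (Hn X A z n ∩ Hn X A z n') else 0

variable {X A}

theorem blk_mono {k t u : Fin N → ℕ} (h : ∀ i, t i ≤ u i) : blk k t ⊆ blk k u := by
  intro p hp
  rw [mem_blk] at hp ⊢
  have := h p.1
  omega

theorem dep_loc (M : ℕ) (k : Fin N → ℕ) (y : Fin d → ℤ) :
    Dep (loc A M k y) (blk k fun _ => 2 * M) := by
  intro f g hfg h
  have e : ∀ t : Fin N → ℕ, (∀ i, t i ≤ 2 * M) → ∑ p ∈ blk k t, f p = ∑ p ∈ blk k t, g p :=
    fun t ht => sum_congr rfl fun p hp => hfg p (blk_mono ht hp)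
  refine ⟨?_, fun t ht hlt => ?_⟩
  · rw [← e _ (fun _ => by omega)]; exact h.1
  · rw [← e t ht]; exact h.2 t ht hlt

theorem Steps.meas_Hn (hX : Steps P X) (z : Fin d → ℤ) (n : Fin N → ℕ) :
    MeasurableSet (Hn X A z n) := by
  refine hX.meas_dep (φ := fun f => z + pos f n ∈ A) (S := blk 0 n) fun f g hfg h => ?_
  simp only [pos_eq] at h ⊢
  rw [← sum_congr rfl hfg]; exact h

theorem Steps.meas_First (hX : Steps P X) (z : Fin d → ℤ) (n : Fin N → ℕ) :
    MeasurableSet (First X A z n) :=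
  (hX.meas_Hn z n).inter (MeasurableSet.iInter fun n' => MeasurableSet.iInter fun _ =>
    (hX.meas_Hn z n').compl)

theorem Steps.measure_hit (hX : Steps P X) (z : Fin d → ℤ) :
    P (⋃ n, Hn X A z n) = ∑' n, P (First X A z n) := by
  rw [← measure_iUnion _ (hX.meas_First z)]
  · congr 1
    ext ω
    simp only [Set.mem_iUnion]
    constructor
    · rintro ⟨n, hn⟩
      obtain ⟨m, hm, hmin⟩ := WellFounded.has_min (wellFounded_lt (α := Lex (Fin N → ℕ)))
        {m | ω ∈ Hn X A z (ofLex m)} ⟨toLex n, hn⟩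
      refine ⟨ofLex m, hm, ?_⟩
      simp only [Set.mem_iInter]
      intro n' hlt hn'
      exact hmin (toLex n') hn' hlt
    · rintro ⟨n, hn⟩
      exact ⟨n, hn.1⟩
  · intro n n' hne
    refine Set.disjoint_left.2 fun ω h1 h2 => ?_
    have h1' := h1.2
    have h2' := h2.2
    simp only [Set.mem_iInter] at h1' h2'
    rcases lt_trichotomy (toLex n) (toLex n') with h | h | h
    · exact h2' n h h1.1
    · exact hne (toLex.injective h)
    · exact h1' n' h h2.1

theorem toLex_add_lt {k t u : Fin N → ℕ} : toLex (k + t) < toLex (k + u) ↔ toLex t < toLex u := by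
  rw [toLex_add, toLex_add]
  exact add_lt_add_iff_left _

theorem First_subset_Ew (M : ℕ) (z : Fin d → ℤ) (k : Fin N → ℕ) :
    First X A z (k + fun _ => M) ⊆ Ew X A M z k := by
  rintro ω ⟨h1, h2⟩
  simp only [Set.mem_iInter] at h2
  refine ⟨?_, fun t _ hlt => ?_⟩
  · have : z + pos (fun p => X p ω) (k + fun _ => M) ∈ A := h1
    rwa [pos_add, ← add_assoc] at this
  · have : z + pos (fun p => X p ω) (k + t) ∉ A := h2 (k + t) (toLex_add_lt.2 hlt)
    rwa [pos_add, ← add_assoc] at this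

theorem Ew_subset (M : ℕ) (z : Fin d → ℤ) (k : Fin N → ℕ) :
    Ew X A M z k ⊆ First X A z (k + fun _ => M) ∪
      ⋃ n', ⋃ _ : ∃ i, M < dif (k + fun _ => M) n' i, Hn X A z (k + fun _ => M) ∩ Hn X A z n' := by
  rintro ω ⟨h1, h2⟩
  have h3 : ω ∈ Hn X A z (k + fun _ => M) := by
    show z + pos (fun p => X p ω) (k + fun _ => M) ∈ A
    rwa [pos_add, ← add_assoc]
  by_cases hf : ω ∈ First X A z (k + fun _ => M)
  · exact Or.inl hf
  right
  have h4 : ∃ n', toLex n' < toLex (k + fun _ => M) ∧ ω ∈ Hn X A z n' := by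
    by_contra hne
    push Not at hne
    exact hf ⟨h3, Set.mem_iInter₂.2 hne⟩
  obtain ⟨n', hlt, hn'⟩ := h4
  simp only [Set.mem_iUnion]
  refine ⟨n', ?_, h3, hn'⟩
  by_contra hne
  push Not at hne
  have h5 : ∀ i, k i ≤ n' i ∧ n' i - k i ≤ 2 * M := by
    intro i
    have := hne i
    simp only [dif, Pi.add_apply] at this
    omega
  have h6 : n' = k + (n' - k) := by
    funext i
    have := h5 i
    simp only [Pi.add_apply, Pi.sub_apply]
    omega
  rw [h6] at hlt hn'
  have h7 : z + pos (fun p => X p ω) (k + (n' - k)) ∈ A := hn'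
  rw [pos_add, ← add_assoc] at h7
  exact h2 (n' - k) (fun i => (h5 i).2) (toLex_add_lt.1 hlt) h7

theorem Steps.hit_le (hX : Steps P X) (M : ℕ) (z : Fin d → ℤ) :
    P (⋃ n, Hn X A z n) ≤ ∑' k, P (Ew X A M z k) +
      ∑' n : Fin N → ℕ, if ∀ i, M ≤ n i then 0 else P (Hn X A z n) := by
  rw [hX.measure_hit, tsum_split (fun _ => M)]
  refine add_le_add (ENNReal.tsum_le_tsum fun k => measure_mono (First_subset_Ew M z k))
    (ENNReal.tsum_le_tsum fun n => ?_)
  split_ifs
  · exact le_rfl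
  · exact measure_mono Set.inter_subset_left

theorem Steps.le_hit (hX : Steps P X) (M : ℕ) (z : Fin d → ℤ) :
    ∑' k, P (Ew X A M z k) ≤ P (⋃ n, Hn X A z n) + Err X A P (fun l => ∃ i, M < l i) z := by
  classical
  rw [hX.measure_hit]
  calc ∑' k, P (Ew X A M z k)
      ≤ ∑' k, (P (First X A z (k + fun _ => M)) +
          ∑' n', if ∃ i, M < dif (k + fun _ => M) n' i then
            P (Hn X A z (k + fun _ => M) ∩ Hn X A z n') else 0) := by
        refine ENNReal.tsum_le_tsum fun k => (measure_mono (Ew_subset M z k)).trans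
          ((measure_union_le _ _).trans (add_le_add le_rfl ((measure_iUnion_le _).trans ?_)))
        refine ENNReal.tsum_le_tsum fun n' => ?_
        split_ifs with h
        · exact measure_mono (Set.iUnion_subset fun _ => le_rfl)
        · simp [h]
    _ ≤ _ := by
        rw [ENNReal.tsum_add]
        refine add_le_add ?_ ?_
        · exact ENNReal.tsum_comp_le_tsum_of_injective (add_left_injective _)
            (fun n => P (First X A z n))
        · refine (ENNReal.tsum_comp_le_tsum_of_injective (add_left_injective (fun _ => M))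
            (fun n => ∑' n', if ∃ i, M < dif n n' i then
              P (Hn X A z n ∩ Hn X A z n') else 0)).trans (le_of_eq ?_)
          unfold Err
          refine tsum_congr fun n => tsum_congr fun n' => ?_
          split_ifs <;> rfl

theorem Steps.loc_stationary (hX : Steps P X) (M : ℕ) (k : Fin N → ℕ) (y : Fin d → ℤ) :
    P {ω | loc A M k y fun p => X p ω} = P {ω | loc A M (0 : Fin N → ℕ) y fun p => X p ω} := by
  let φ : (Fin N × Fin (2 * M) → Fin d → ℤ) → Prop := fun ξ =>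
    loc A M (0 : Fin N → ℕ) y fun p => if h : p.2 < 2 * M then ξ (p.1, ⟨p.2, h⟩) else 0
  have key : ∀ k : Fin N → ℕ, P {ω | loc A M k y fun p => X p ω} =
      Measure.pi (fun _ : Fin N × Fin (2 * M) => stepLaw d) {ξ | φ ξ} := by
    intro k
    have he : Function.Injective
        (fun κ : Fin N × Fin (2 * M) => ((κ.1, k κ.1 + κ.2) : Fin N × ℕ)) := by
      rintro ⟨i, j⟩ ⟨i', j'⟩ h
      simp only [Prod.mk.injEq] at h
      obtain ⟨rfl, h⟩ := h
      have : j = j' := Fin.ext (by omega)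
      rw [this]
    rw [← hX.stationary he φ]
    congr 1
    ext ω
    have e : ∀ t : Fin N → ℕ, (∀ i, t i ≤ 2 * M) → ∑ p ∈ blk k t, X p ω =
        ∑ p ∈ blk 0 t, if h : p.2 < 2 * M then X (p.1, k p.1 + p.2) ω else 0 := by
      intro t ht
      rw [sum_blk, sum_blk]
      refine sum_congr rfl fun i _ => sum_congr rfl fun j hj => ?_
      have : j < 2 * M := lt_of_lt_of_le (mem_range.1 hj) (ht i)
      simp [this]
    simp only [Set.mem_ofPred_eq, φ, loc]
    rw [e _ (fun _ => by omega)]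
    refine and_congr Iff.rfl (forall_congr' fun t => forall_congr' fun ht => ?_)
    rw [e t ht]
  rw [key k, key 0]

theorem tsum_conv_gI (ν : (Fin d → ℤ) → ℝ≥0∞) (z : Fin d → ℤ) :
    ∑' k : Fin N → ℕ, ∑' w, pE d (∑ i, k i) w * ν (z + w) =
      ∑' y, ν y * gI d (Fin N) (y - z) := by
  rw [ENNReal.tsum_comm, ← (Equiv.addLeft z).tsum_eq (fun y => ν y * gI d (Fin N) (y - z))]
  refine tsum_congr fun w => ?_
  rw [ENNReal.tsum_mul_right, mul_comm]
  simp [gI]

theorem Steps.tsum_Ew (hX : Steps P X) (hd : 0 < d) (M : ℕ) (z : Fin d → ℤ) :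
    ∑' k, P (Ew X A M z k) =
      ∑' y, P {ω | loc A M (0 : Fin N → ℕ) y fun p => X p ω} * gI d (Fin N) (y - z) := by
  rw [← tsum_conv_gI]
  refine tsum_congr fun k => ?_
  have := hX.sum_decomp hd (ψ := fun w f => loc A M k (z + w) f) (S := blk 0 k)
    (T := blk k fun _ => 2 * M) (disjoint_blk _ _) (fun w => dep_loc M k _)
  rw [card_blk] at this
  simp only [hX.loc_stationary M k] at this
  exact this

theorem Steps.measure_mem (hX : Steps P X) (hd : 0 < d) (S : Finset (Fin N × ℕ))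
    (y : Fin d → ℤ) :
    P {ω | y + ∑ p ∈ S, X p ω ∈ A} = ∑' w, pE d S.card w * if y + w ∈ A then 1 else 0 := by
  have := hX.ind.isProbabilityMeasure
  have h := hX.sum_decomp hd (ψ := fun w _ => y + w ∈ A) (S := S) (T := ∅)
    (disjoint_empty_right _) (fun w f g _ h => h)
  rw [h]
  refine tsum_congr fun w => ?_
  congr 1
  split_ifs with hw <;> simp [hw]

theorem Steps.tsum_Hn (hX : Steps P X) (hd : 0 < d) (z : Fin d → ℤ) :
    ∑' n, P (Hn X A z n) = ∑' y, (if y ∈ A then 1 else 0) * gI d (Fin N) (y - z) := by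
  rw [← tsum_conv_gI (fun y => if y ∈ A then 1 else 0)]
  refine tsum_congr fun n => ?_
  rw [← card_blk 0 n, ← hX.measure_mem hd]
  simp only [Hn, pos_eq]

theorem Steps.tsum_Hn_shift (hX : Steps P X) (hd : 0 < d) (c : Fin N → ℕ) (z : Fin d → ℤ) :
    ∑' k, P (Hn X A z (k + c)) =
      ∑' y, (∑' v, pE d (∑ i, c i) v * if y + v ∈ A then 1 else 0) * gI d (Fin N) (y - z) := by
  rw [← tsum_conv_gI (fun y => ∑' v, pE d (∑ i, c i) v * if y + v ∈ A then 1 else 0)]
  refine tsum_congr fun k => ?_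
  have h := hX.sum_decomp hd (ψ := fun w f => z + w + ∑ p ∈ blk k c, f p ∈ A) (S := blk 0 k)
    (T := blk k c) (disjoint_blk _ _)
    (fun w f g hfg h => by simp only [← sum_congr rfl hfg]; exact h)
  simp only [hX.measure_mem hd, card_blk] at h
  rw [← h]
  simp only [Hn, pos_add, add_assoc]

open Classical in
theorem Steps.Err_le (hX : Steps P X) (hd : 0 < d) (Φ : (Fin N → ℕ) → Prop) (z : Fin d → ℤ) :
    Err X A P Φ z ≤ ∑ σ : Fin N → Bool, ∑ a ∈ A, ∑ a' ∈ A, ∑' x, gI d (Fin N) (a - z - x) *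
      ∑' l : Fin N → ℕ, if Φ l then pE d (sT σ l) x * pE d (sF σ l) (a' - a + x) else 0 := by
  let lT : (Fin N → Bool) → (Fin N → ℕ) → Fin N → ℕ := fun σ l i => if σ i then l i else 0
  let lF : (Fin N → Bool) → (Fin N → ℕ) → Fin N → ℕ := fun σ l i => if σ i then 0 else l i
  let e : (Fin N → Bool) × (Fin N → ℕ) × (Fin N → ℕ) → (Fin N → ℕ) × (Fin N → ℕ) :=
    fun s => (s.2.2 + lT s.1 s.2.1, s.2.2 + lF s.1 s.2.1)
  have he : Function.Surjective e := by
    rintro ⟨n, n'⟩
    refine ⟨(fun i => decide (n' i < n i), dif n n', fun i => min (n i) (n' i)), ?_⟩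
    simp only [e, lT, lF, Prod.mk.injEq]
    constructor <;> funext i <;> simp only [Pi.add_apply, dif, decide_eq_true_eq] <;>
      split_ifs <;> omega
  have hdif : ∀ σ l k, dif (k + lT σ l) (k + lF σ l) = l := by
    intro σ l k
    funext i
    simp only [dif, Pi.add_apply, lT, lF]
    split_ifs <;> omega
  unfold Err
  rw [← ENNReal.tsum_prod (f := fun n n' : Fin N → ℕ =>
    if Φ (dif n n') then P (Hn X A z n ∩ Hn X A z n') else 0)]
  refine (ENNReal.tsum_le_tsum_comp_of_surjective he _).trans ?_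
  rw [ENNReal.tsum_prod', tsum_fintype]
  refine sum_le_sum fun σ _ => ?_
  rw [ENNReal.tsum_prod']
  simp only [e, hdif]
  have h1 : ∀ l k : Fin N → ℕ, P (Hn X A z (k + lT σ l) ∩ Hn X A z (k + lF σ l)) ≤
      ∑ a ∈ A, ∑ a' ∈ A, ∑' x, pE d (∑ i, k i) (a - z - x) *
        (pE d (sT σ l) x * pE d (sF σ l) (a' - a + x)) := by
    intro l k
    have hsub : Hn X A z (k + lT σ l) ∩ Hn X A z (k + lF σ l) ⊆ ⋃ a ∈ A, ⋃ a' ∈ A,
        {ω | ∑ p ∈ blk 0 k, X p ω + ∑ p ∈ blk k (lT σ l), X p ω = a - z ∧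
          ∑ p ∈ blk 0 k, X p ω + ∑ p ∈ blk k (lF σ l), X p ω = a' - a + (a - z)} := by
      rintro ω ⟨h1, h2⟩
      simp only [Hn, pos_add, Set.mem_ofPred_eq] at h1 h2
      simp only [Set.mem_iUnion, Set.mem_ofPred_eq]
      exact ⟨_, h1, _, h2, by abel, by abel⟩
    refine (measure_mono hsub).trans ((measure_biUnion_finset_le _ _).trans
      (sum_le_sum fun a _ => (measure_biUnion_finset_le _ _).trans (sum_le_sum fun a' _ => ?_)))
    rw [hX.triple hd (disjoint_blk _ _) (disjoint_blk _ _), card_blk, card_blk, card_blk]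
    · exact le_rfl
    · refine disjoint_left.2 fun p h1 h2 => ?_
      rw [mem_blk] at h1 h2
      simp only [lT, lF] at h1 h2
      split_ifs at h1 h2 <;> omega
  calc ∑' l, ∑' k, (if Φ l then P (Hn X A z (k + lT σ l) ∩ Hn X A z (k + lF σ l)) else 0)
      ≤ ∑' l, ∑' k : Fin N → ℕ, ∑ a ∈ A, ∑ a' ∈ A, ∑' x, pE d (∑ i, k i) (a - z - x) *
          (if Φ l then pE d (sT σ l) x * pE d (sF σ l) (a' - a + x) else 0) := by
        refine ENNReal.tsum_le_tsum fun l => ENNReal.tsum_le_tsum fun k => ?_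
        split_ifs
        · exact h1 l k
        · exact zero_le
    _ = _ := by
        simp only [tsum_fsum]
        refine sum_congr rfl fun a _ => sum_congr rfl fun a' _ => ?_
        rw [tsum_congr fun l => ENNReal.tsum_comm, ENNReal.tsum_comm]
        refine tsum_congr fun x => ?_
        simp only [ENNReal.tsum_mul_right, ENNReal.tsum_mul_left, gI]

end Pool.Agent.Lib.MP_a3b629_pr
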