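import Mathlib
import Pool.Agent.Lib.MP_a3b629_pr.Events

/-!
Convergence of the normalised hitting probability.
-/

set_option autoImplicit false
set_option linter.unusedSectionVars false

open Finset Filter Topology MeasureTheory ProbabilityTheory
open scoped ENNReal

namespace Pool.Agent.Lib.MP_a3b629_pr

variable {d k : ℕ}

theorem gE_neg (d k : ℕ) (x : Fin d → ℤ) : gE d k (-x) = gE d k x := by
  rw [← gI_fin_succ, ← gI_fin_succ, gI_neg]

theorem tendsto_ratio_sub (hk : 2 * (k + 1) < d) (y : Fin d → ℤ) :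
    Tendsto (fun z => gR d k (y - z) / gR d k z) cofinite (𝓝 1) := by
  refine (tendsto_ratio hk (-y)).congr fun z => ?_
  unfold gR
  rw [← gE_neg d k (y - z), neg_sub, sub_eq_add_neg]

theorem conv_ne_top (hk : 2 * (k + 1) < d) {ν : (Fin d → ℤ) → ℝ≥0∞} {F : Finset (Fin d → ℤ)}
    (hF : ∀ y ∉ F, ν y = 0) (hν : ∀ y, ν y ≠ ⊤) (z : Fin d → ℤ) :
    ∑' y, ν y * gE d k (y - z) ≠ ⊤ := by
  rw [tsum_eq_sum (s := F) (fun y hy => by rw [hF y hy, zero_mul])]
  exact ENNReal.sum_ne_top.2 fun y _ => ENNReal.mul_ne_top (hν y) (gE_ne_top hk _)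

theorem lim_conv (hk : 2 * (k + 1) < d) {ν : (Fin d → ℤ) → ℝ≥0∞} {F : Finset (Fin d → ℤ)}
    (hF : ∀ y ∉ F, ν y = 0) (hν : ∀ y, ν y ≠ ⊤) :
    Tendsto (fun z => (∑' y, ν y * gE d k (y - z)).toReal / gR d k z) cofinite
      (𝓝 (∑' y, ν y).toReal) := by
  rw [tsum_eq_sum (s := F) hF, ENNReal.toReal_sum (fun y _ => hν y)]
  have h1 : Tendsto (fun z => ∑ y ∈ F, (ν y).toReal * (gR d k (y - z) / gR d k z)) cofinite
      (𝓝 (∑ y ∈ F, (ν y).toReal * 1)) :=
    tendsto_finsetSum _ fun y _ => (tendsto_ratio_sub hk y).const_mul _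
  simp only [mul_one] at h1
  refine h1.congr fun z => ?_
  rw [tsum_eq_sum (s := F) (fun y hy => by rw [hF y hy, zero_mul]),
    ENNReal.toReal_sum (fun y _ => ENNReal.mul_ne_top (hν y) (gE_ne_top hk _)), sum_div]
  refine sum_congr rfl fun y _ => ?_
  rw [ENNReal.toReal_mul, mul_div_assoc, gR]

theorem eventually_le_two (hk : 2 * (k + 1) < d) (a : Fin d → ℤ) :
    ∀ᶠ z in cofinite, gE d k (a - z) ≤ 2 * gE d k z := by
  filter_upwards [(tendsto_ratio_sub hk a).eventually_lt_const (show (1 : ℝ) < 2 by norm_num)]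
    with z hz
  rw [div_lt_iff₀ (gR_pos hk z)] at hz
  rw [← ENNReal.toReal_le_toReal (gE_ne_top hk _)
    (ENNReal.mul_ne_top (by simp) (gE_ne_top hk _)), ENNReal.toReal_mul]
  simpa [gR] using hz.le

variable {Ω : Type*} [MeasurableSpace Ω] {P : Measure Ω}
  {X : Fin (k + 1) × ℕ → Ω → Fin d → ℤ} {A : Finset (Fin d → ℤ)}

open Classical in
theorem Steps.err_gen (hX : Steps P X) (hk : 2 * (k + 1) < d) (A : Finset (Fin d → ℤ)) :
    ∃ K : ℝ, 0 < K ∧ ∀ (Φ : (Fin (k + 1) → ℕ) → Prop) (δ : ℝ), 0 < δ →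
      (∀ a ∈ A, ∀ a' ∈ A, ∑' l : Fin (k + 1) → ℕ,
        (if Φ l then pE d (∑ i, l i) (a' - a) else 0) ≤ ENNReal.ofReal δ) →
      ∀ᶠ z in cofinite, Err X A P Φ z ≤ ENNReal.ofReal (K * δ) * gE d k z := by
  have hd : 0 < d := by omega
  obtain ⟨C, hC, hconv⟩ := conv_bound hk
  refine ⟨(2 ^ (k + 1) * (A.card * (A.card * ((C + 1) * 2)))) + 1, by positivity,
    fun Φ δ hδ hτ => ?_⟩
  have h1 : ∀ σ : Fin (k + 1) → Bool, ∀ a ∈ A, ∀ a' ∈ A, ∀ᶠ z in cofinite,
      ∑' x, gI d (Fin (k + 1)) (a - z - x) * ∑' l : Fin (k + 1) → ℕ,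
        (if Φ l then pE d (sT σ l) x * pE d (sF σ l) (a' - a + x) else 0) ≤
        ENNReal.ofReal ((C + 1) * 2 * δ) * gE d k z := by
    intro σ a ha a' ha'
    obtain ⟨D, hD, hDb⟩ := pair_bound hk σ (a' - a)
    have h2 := hconv (fun x => ∑' l : Fin (k + 1) → ℕ,
        (if Φ l then pE d (sT σ l) x * pE d (sF σ l) (a' - a + x) else 0)) D hD
      (fun x => le_trans (ENNReal.tsum_le_tsum fun l => by
        split_ifs
        · exact le_rfl
        · exact zero_le) (hDb x)) δ hδ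
    have h3 : ∑' x, ∑' l : Fin (k + 1) → ℕ,
        (if Φ l then pE d (sT σ l) x * pE d (sF σ l) (a' - a + x) else 0) ≤ ENNReal.ofReal δ := by
      rw [ENNReal.tsum_comm]
      refine le_trans (le_of_eq (tsum_congr fun l => ?_)) (hτ a ha a' ha')
      split_ifs
      · rw [pair_sum hd, sT_add_sF]
      · simp
    have h4 : Tendsto (fun z : Fin d → ℤ => a - z) cofinite cofinite :=
      (sub_right_injective (b := a)).tendsto_cofinite
    filter_upwards [h4.eventually h2, eventually_le_two hk a] with z hz1 hz2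
    simp only [gI_fin_succ]
    refine hz1.trans ?_
    calc _ ≤ (ENNReal.ofReal C * ENNReal.ofReal δ + ENNReal.ofReal δ) * (2 * gE d k z) := by
          gcongr
      _ = _ := by
          rw [← ENNReal.ofReal_mul hC.le, ← ENNReal.ofReal_add (by positivity) hδ.le, ← mul_assoc,
            ← ENNReal.ofReal_ofNat 2, ← ENNReal.ofReal_mul (by positivity)]
          congr 2; ring
  have h5 : ∀ᶠ z in cofinite, ∀ σ : Fin (k + 1) → Bool, ∀ a ∈ A, ∀ a' ∈ A,
      ∑' x, gI d (Fin (k + 1)) (a - z - x) * ∑' l : Fin (k + 1) → ℕ,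
        (if Φ l then pE d (sT σ l) x * pE d (sF σ l) (a' - a + x) else 0) ≤
        ENNReal.ofReal ((C + 1) * 2 * δ) * gE d k z := by
    rw [eventually_all]
    intro σ
    rw [eventually_all_finset]
    intro a ha
    rw [eventually_all_finset]
    exact h1 σ a ha
  filter_upwards [h5] with z hz
  refine (hX.Err_le hd Φ z).trans ?_
  calc _ ≤ ∑ _σ : Fin (k + 1) → Bool, ∑ _a ∈ A, ∑ _a' ∈ A,
          ENNReal.ofReal ((C + 1) * 2 * δ) * gE d k z :=
        sum_le_sum fun σ _ => sum_le_sum fun a ha => sum_le_sum fun a' ha' => hz σ a ha a' ha'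
    _ = ENNReal.ofReal (2 ^ (k + 1) * (A.card * (A.card * ((C + 1) * 2 * δ)))) * gE d k z := by
        simp only [sum_const, card_univ, Fintype.card_fun, Fintype.card_bool, Fintype.card_fin,
          nsmul_eq_mul]
        rw [ENNReal.ofReal_mul (p := 2 ^ (k + 1)) (by positivity),
          ENNReal.ofReal_mul (p := A.card) (by positivity),
          ENNReal.ofReal_mul (p := A.card) (by positivity), ENNReal.ofReal_natCast,
          ENNReal.ofReal_pow (by norm_num), ENNReal.ofReal_ofNat]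
        push_cast
        ring
    _ ≤ _ := by
        refine mul_le_mul_left (ENNReal.ofReal_le_ofReal ?_) _
        nlinarith

theorem Steps.err_small (hX : Steps P X) (hk : 2 * (k + 1) < d) (A : Finset (Fin d → ℤ))
    {η : ℝ} (hη : 0 < η) : ∃ M : ℕ, ∀ᶠ z in cofinite,
      Err X A P (fun l => ∃ i, M < l i) z ≤ ENNReal.ofReal η * gE d k z := by
  classical
  obtain ⟨K, hK, h⟩ := hX.err_gen hk A
  have h1 : ∀ b : Fin d → ℤ, ∀ᶠ M : ℕ in atTop, ∑' l : Fin (k + 1) → ℕ,
      (if ∃ i, M < l i then pE d (∑ i, l i) b else 0) ≤ ENNReal.ofReal (η / K) := by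
    intro b
    have h2 : ∑' l : Fin (k + 1) → ℕ, pE d (∑ i, l i) b ≠ ⊤ := by
      have := gE_ne_top hk b
      rwa [← gI_fin_succ] at this
    have h3 := (ENNReal.tendsto_tsum_compl_atTop_zero h2).eventually_le_const
      (ENNReal.ofReal_pos.2 (show 0 < η / K by positivity))
    obtain ⟨s, hs⟩ := h3.exists
    filter_upwards [eventually_ge_atTop (s.sup fun l => univ.sup l)] with M hM
    refine le_trans (le_trans ?_ (tsum_subtype {x | x ∉ s}
      (fun l : Fin (k + 1) → ℕ => pE d (∑ i, l i) b)).ge) hs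
    refine ENNReal.tsum_le_tsum fun l => ?_
    split_ifs with hl
    · rw [Set.indicator_of_mem]
      intro hls
      obtain ⟨i, hi⟩ := hl
      have a1 : l i ≤ univ.sup l := le_sup (mem_univ i)
      have a2 : univ.sup l ≤ s.sup fun l => univ.sup l := le_sup (f := fun l => univ.sup l) hls
      omega
    · exact zero_le
  have h4 : ∀ᶠ M : ℕ in atTop, ∀ a ∈ A, ∀ a' ∈ A, ∑' l : Fin (k + 1) → ℕ,
      (if ∃ i, M < l i then pE d (∑ i, l i) (a' - a) else 0) ≤ ENNReal.ofReal (η / K) := by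
    rw [eventually_all_finset]
    intro a _
    rw [eventually_all_finset]
    intro a' _
    exact h1 _
  obtain ⟨M, hM⟩ := h4.exists
  refine ⟨M, ?_⟩
  have h5 := h (fun l => ∃ i, M < l i) (η / K) (by positivity) (fun a ha a' ha' =>
    le_trans (le_of_eq (tsum_congr fun l => by split_ifs <;> rfl)) (hM a ha a' ha'))
  rwa [mul_div_cancel₀ _ hK.ne'] at h5

theorem Steps.err_bdd (hX : Steps P X) (hk : 2 * (k + 1) < d) (A : Finset (Fin d → ℤ)) :
    ∃ K : ℝ, 0 < K ∧ ∀ᶠ z in cofinite,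
      Err X A P (fun _ => True) z ≤ ENNReal.ofReal K * gE d k z := by
  obtain ⟨K, hK, h⟩ := hX.err_gen hk A
  obtain ⟨C, hC, hle⟩ := gE_le hk
  refine ⟨K * C, by positivity, h _ C hC fun a _ a' _ => ?_⟩
  simp only [if_true]
  have := hle (a' - a)
  rw [← gI_fin_succ] at this
  refine this.trans (ENNReal.ofReal_le_ofReal ?_)
  exact div_le_self hC.le (one_le_pow₀ (one_le_om _))

theorem Steps.second_moment (hX : Steps P X) (z : Fin d → ℤ) {c : ℝ} (hc : 0 < c) :
    ENNReal.ofReal (2 * c) * ∑' n, P (Hn X A z n) ≤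
      P (⋃ n, Hn X A z n) + ENNReal.ofReal (c ^ 2) * Err X A P (fun _ => True) z := by
  have hm := hX.meas_Hn (A := A) z
  set L : Ω → ℝ≥0∞ := fun ω => ∑' n, (Hn X A z n).indicator 1 ω with hL
  have hLm : Measurable L := Measurable.tsum fun n => measurable_one.indicator (hm n)
  have h1 : ∫⁻ ω, L ω ∂P = ∑' n, P (Hn X A z n) := by
    rw [hL, lintegral_tsum fun n => (measurable_one.indicator (hm n)).aemeasurable]
    exact tsum_congr fun n => lintegral_indicator_one (hm n)
  have h2 : ∫⁻ ω, L ω * L ω ∂P = Err X A P (fun _ => True) z := by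
    have e : ∀ ω, L ω * L ω = ∑' n, ∑' n', (Hn X A z n ∩ Hn X A z n').indicator 1 ω := by
      intro ω
      rw [hL]
      simp only
      rw [← ENNReal.tsum_mul_right]
      refine tsum_congr fun n => ?_
      rw [← ENNReal.tsum_mul_left]
      refine tsum_congr fun n' => ?_
      rw [Set.inter_indicator_one]; rfl
    simp only [e, Err, if_true]
    rw [lintegral_tsum fun n => (Measurable.tsum fun n' =>
      measurable_one.indicator ((hm n).inter (hm n'))).aemeasurable]
    refine tsum_congr fun n => ?_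
    rw [lintegral_tsum fun n' => (measurable_one.indicator ((hm n).inter (hm n'))).aemeasurable]
    exact tsum_congr fun n' => lintegral_indicator_one ((hm n).inter (hm n'))
  have hU : MeasurableSet (⋃ n, Hn X A z n) := MeasurableSet.iUnion hm
  rw [← h1, ← h2, ← lintegral_indicator_one hU, ← lintegral_const_mul _ hLm,
    ← lintegral_const_mul' _ _ ENNReal.ofReal_ne_top, ← lintegral_add_left (measurable_one.indicator hU)]
  refine lintegral_mono fun ω => ?_
  by_cases hω : ω ∈ ⋃ n, Hn X A z n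
  · rw [Set.indicator_of_mem hω, Pi.one_apply]
    rcases eq_or_ne (L ω) ⊤ with ht | ht
    · rw [ht, ENNReal.top_mul_top, ENNReal.mul_top (a := ENNReal.ofReal (c ^ 2))
        (ENNReal.ofReal_pos.2 (by positivity)).ne']
      simp
    · rw [← ENNReal.ofReal_toReal ht, ← ENNReal.ofReal_mul (by positivity),
        ← ENNReal.ofReal_mul ENNReal.toReal_nonneg, ← ENNReal.ofReal_mul (by positivity),
        ← ENNReal.ofReal_one, ← ENNReal.ofReal_add (by norm_num) (by positivity)]
      refine ENNReal.ofReal_le_ofReal ?_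
      nlinarith [sq_nonneg (1 - c * (L ω).toReal)]
  · have : L ω = 0 := by
      rw [hL]
      simp only [ENNReal.tsum_eq_zero]
      intro n
      exact Set.indicator_of_notMem (fun h => hω (Set.mem_iUnion.2 ⟨n, h⟩)) _
    simp [this]

theorem exists_tendsto_of_approx {α : Type*} {l : Filter α} [l.NeBot] {f : α → ℝ}
    (h : ∀ η : ℝ, 0 < η → ∃ c : ℝ, ∀ᶠ x in l, |f x - c| ≤ η) : ∃ L, Tendsto f l (𝓝 L) := by
  have hc : Cauchy (map f l) := by
    rw [Metric.cauchy_iff]
    refine ⟨map_neBot, fun ε hε => ?_⟩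
    obtain ⟨c, hc⟩ := h (ε / 3) (by positivity)
    refine ⟨{y | |y - c| ≤ ε / 3}, hc, fun x hx y hy => ?_⟩
    have h1 := abs_le.1 (show |x - c| ≤ ε / 3 from hx)
    have h2 := abs_le.1 (show |y - c| ≤ ε / 3 from hy)
    rw [Real.dist_eq, abs_lt]
    constructor <;> linarith [h1.1, h1.2, h2.1, h2.2]
  exact CompleteSpace.complete hc

theorem Steps.main (hX : Steps P X) (hk : 2 * (k + 1) < d) (hA : A.Nonempty) :
    ∃ L : ℝ, 0 < L ∧
      Tendsto (fun z => (P (⋃ n, Hn X A z n)).toReal / gR d k z) cofinite (𝓝 L) := by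
  have hd : 0 < d := by omega
  have hP := hX.ind.isProbabilityMeasure
  have : Nonempty (Fin d) := ⟨⟨0, hd⟩⟩
  have hG := gR_pos hk
  -- the first moment
  have hν0 : ∀ y ∉ A, (if y ∈ A then (1 : ℝ≥0∞) else 0) = 0 := fun y hy => if_neg hy
  have hν0' : ∀ y, (if y ∈ A then (1 : ℝ≥0∞) else 0) ≠ ⊤ := fun y => by split_ifs <;> simp
  have hsum0 : ∑' y, (if y ∈ A then (1 : ℝ≥0∞) else 0) = A.card := by
    rw [tsum_eq_sum (s := A) hν0, sum_congr rfl fun y hy => if_pos hy]; simp
  have hT0 : Tendsto (fun z => (∑' n, P (Hn X A z n)).toReal / gR d k z) cofinite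
      (𝓝 (A.card : ℝ)) := by
    have := lim_conv hk hν0 hν0'
    rw [hsum0] at this
    simpa only [hX.tsum_Hn hd, gI_fin_succ, ENNReal.toReal_natCast] using this
  have hT0' : ∀ z, ∑' n, P (Hn X A z n) ≠ ⊤ := fun z => by
    simpa only [hX.tsum_Hn hd, gI_fin_succ] using conv_ne_top hk hν0 hν0' z
  have hex : ∃ L, Tendsto (fun z => (P (⋃ n, Hn X A z n)).toReal / gR d k z) cofinite (𝓝 L) := by
    refine exists_tendsto_of_approx fun η hη => ?_
    obtain ⟨M, hM⟩ := hX.err_small hk A (η := η / 2) (by positivity)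
    set m := ∑ _i : Fin (k + 1), M with hm
    set ν1 : (Fin d → ℤ) → ℝ≥0∞ := fun y => ∑' v, pE d m v * if y + v ∈ A then 1 else 0 with hν1
    set F := A.biUnion fun a => (Fintype.piFinset fun _ : Fin d =>
      Finset.Icc (-(m : ℤ)) m).image fun v => a - v with hF
    have hν1F : ∀ y ∉ F, ν1 y = 0 := by
      intro y hy
      rw [hν1]
      simp only [ENNReal.tsum_eq_zero]
      intro v
      split_ifs with hv
      · rw [mul_one]
        refine pE_eq_zero hd m v ?_
        by_contra hh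
        exact hy (mem_biUnion.2 ⟨_, hv, mem_image.2 ⟨v, mem_box (not_lt.1 hh), by abel⟩⟩)
      · exact mul_zero _
    have hν1P : ∀ y, ν1 y = P {ω | y + ∑ p ∈ blk 0 (fun _ => M), X p ω ∈ A} := fun y => by
      rw [hX.measure_mem hd, card_blk]
    have hν1' : ∀ y, ν1 y ≠ ⊤ := fun y => by rw [hν1P]; exact measure_ne_top _ _
    have hsum1 : ∑' y, ν1 y = A.card := by
      rw [hν1, ENNReal.tsum_comm]
      simp only [ENNReal.tsum_mul_left]
      have e : ∀ v : Fin d → ℤ, ∑' y, (if y + v ∈ A then (1 : ℝ≥0∞) else 0) = A.card := fun v =>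
        ((Equiv.addRight v).tsum_eq (fun y => if y ∈ A then (1 : ℝ≥0∞) else 0)).trans hsum0
      simp only [e]
      rw [ENNReal.tsum_mul_right, tsum_pE hd, one_mul]
    have hT1 : Tendsto (fun z => (∑' n, P (Hn X A z (n + fun _ => M))).toReal / gR d k z) cofinite
        (𝓝 (A.card : ℝ)) := by
      have := lim_conv hk hν1F hν1'
      rw [hsum1] at this
      simpa only [hX.tsum_Hn_shift hd, gI_fin_succ, ENNReal.toReal_natCast] using this
    set ν2 : (Fin d → ℤ) → ℝ≥0∞ :=
      fun y => P {ω | loc A M (0 : Fin (k + 1) → ℕ) y fun p => X p ω} with hν2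
    have hν2F : ∀ y ∉ F, ν2 y = 0 := by
      intro y hy
      refine le_antisymm (le_trans ?_ (hν1F y hy).le) zero_le
      rw [hν1P]
      exact measure_mono fun ω h => h.1
    have hν2' : ∀ y, ν2 y ≠ ⊤ := fun y => measure_ne_top _ _
    have hB : Tendsto (fun z => (∑' n, P (Ew X A M z n)).toReal / gR d k z) cofinite
        (𝓝 (∑' y, ν2 y).toReal) := by
      simpa only [hX.tsum_Ew hd, gI_fin_succ] using lim_conv hk hν2F hν2'
    have hB' : ∀ z, ∑' n, P (Ew X A M z n) ≠ ⊤ := fun z => by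
      simpa only [hX.tsum_Ew hd, gI_fin_succ] using conv_ne_top hk hν2F hν2' z
    have hR := (hT0.sub hT1).add hB
    rw [sub_self, zero_add] at hR
    refine ⟨(∑' y, ν2 y).toReal, ?_⟩
    filter_upwards [hM, hR.eventually_lt_const (show _ < (∑' y, ν2 y).toReal + η by linarith),
      hB.eventually_const_lt (show (∑' y, ν2 y).toReal - η / 2 < _ by linarith)] with z h1 h2 h3
    have hsplit := tsum_split (fun _ => M) (fun n => P (Hn X A z n))
    have hfin := hT0' z
    rw [hsplit, ENNReal.add_ne_top] at hfin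
    have e1 := congrArg ENNReal.toReal hsplit
    rw [ENNReal.toReal_add hfin.1 hfin.2] at e1
    have e2 := ENNReal.toReal_mono (ENNReal.add_ne_top.2 ⟨hB' z, hfin.2⟩) (hX.hit_le M z)
    rw [ENNReal.toReal_add (hB' z) hfin.2] at e2
    have e3 := ENNReal.toReal_mono (ENNReal.add_ne_top.2 ⟨measure_ne_top _ _,
      ENNReal.mul_ne_top ENNReal.ofReal_ne_top (gE_ne_top hk z)⟩)
      ((hX.le_hit M z).trans (add_le_add le_rfl h1))
    rw [ENNReal.toReal_add (measure_ne_top _ _)
      (ENNReal.mul_ne_top ENNReal.ofReal_ne_top (gE_ne_top hk z)), ENNReal.toReal_mul,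
      ENNReal.toReal_ofReal (by positivity)] at e3
    have hGz := hG z
    rw [← sub_div, ← add_div, div_lt_iff₀ hGz] at h2
    rw [lt_div_iff₀ hGz] at h3
    rw [abs_le]
    constructor
    · rw [le_sub_iff_add_le, le_div_iff₀ hGz]
      unfold gR at *
      nlinarith
    · rw [sub_le_iff_le_add, div_le_iff₀ hGz]
      unfold gR at *
      nlinarith
  obtain ⟨L, hL⟩ := hex
  refine ⟨L, ?_, hL⟩
  obtain ⟨K, hK, hKb⟩ := hX.err_bdd hk A
  have hcard : (1 : ℝ) ≤ A.card := by exact_mod_cast hA.card_pos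
  refine lt_of_lt_of_le (show 0 < 1 / (4 * K) by positivity) (ge_of_tendsto hL ?_)
  filter_upwards [hKb, hT0.eventually_const_lt (show (1 / 2 : ℝ) < A.card by linarith)]
    with z h1 h2
  have hGz := hG z
  have e1 := ENNReal.toReal_mono (ENNReal.add_ne_top.2 ⟨measure_ne_top _ _,
      ENNReal.mul_ne_top ENNReal.ofReal_ne_top
        (ENNReal.mul_ne_top ENNReal.ofReal_ne_top (gE_ne_top hk z))⟩)
    ((hX.second_moment z (c := 1 / (2 * K)) (by positivity)).trans
      (add_le_add le_rfl (mul_le_mul_right h1 _)))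
  rw [ENNReal.toReal_add (measure_ne_top _ _) (ENNReal.mul_ne_top ENNReal.ofReal_ne_top
      (ENNReal.mul_ne_top ENNReal.ofReal_ne_top (gE_ne_top hk z))), ENNReal.toReal_mul,
    ENNReal.toReal_mul, ENNReal.toReal_mul, ENNReal.toReal_ofReal (by positivity),
    ENNReal.toReal_ofReal (by positivity), ENNReal.toReal_ofReal hK.le] at e1
  rw [lt_div_iff₀ hGz] at h2
  rw [le_div_iff₀ hGz]
  have e2 : (1 / (2 * K)) ^ 2 * (K * (gE d k z).toReal) = 1 / (4 * K) * gR d k z := by
    unfold gR; field_simp; ring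
  have e3 : 2 * (1 / (2 * K)) * (1 / 2 * gR d k z) = 2 * (1 / (4 * K) * gR d k z) := by
    field_simp; ring
  have e4 : 2 * (1 / (2 * K)) * (1 / 2 * gR d k z) ≤
      2 * (1 / (2 * K)) * (∑' n, P (Hn X A z n)).toReal := by gcongr
  linarith

end Pool.Agent.Lib.MP_a3b629_pr
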