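import Mathlib
import Pool.Agent.Lib.MP_a3b629_pr.Main

/-!
The value of the limit: an escape probability for two-sided walks.
-/

set_option autoImplicit false
set_option linter.unusedSectionVars false

open Finset Filter Topology MeasureTheory ProbabilityTheory
open scoped ENNReal

namespace Pool.Agent.Lib.MP_a3b629_pr

/-- The two-sided walk with steps `x`, equal to zero at time zero. -/
noncomputable def walk2 {G : Type} [AddCommGroup G] (x : ℤ → G) (n : ℤ) : G :=
  ∑ j ∈ Finset.Ico 0 n, x j - ∑ j ∈ Finset.Ico n 0, x j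

theorem walk2_succ {G : Type} [AddCommGroup G] (x : ℤ → G) (n : ℤ) :
    walk2 x (n + 1) = walk2 x n + x n := by
  unfold walk2
  rcases le_or_gt 0 n with h | h
  · rw [Finset.Ico_eq_empty (a := n + 1) (by omega), Finset.Ico_eq_empty (a := n) (by omega),
      ← Finset.insert_Ico_right_eq_Ico_add_one h, Finset.sum_insert (by simp)]
    simp [add_comm]
  · rw [Finset.Ico_eq_empty (a := 0) (b := n + 1) (by omega),
      Finset.Ico_eq_empty (a := 0) (b := n) (by omega),
      ← Finset.insert_Ico_add_one_left_eq_Ico h, Finset.sum_insert (by simp)]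
    abel

theorem walk2_add {G : Type} [AddCommGroup G] (x : ℤ → G) (n : ℤ) (t : ℕ) :
    walk2 x (n + t) = walk2 x n + ∑ j ∈ range t, x (n + j) := by
  induction t with
  | zero => simp
  | succ t ih => rw [Nat.cast_succ, ← add_assoc, walk2_succ, ih, sum_range_succ, add_assoc]

theorem walk2_zero {G : Type} [AddCommGroup G] (x : ℤ → G) : walk2 x 0 = 0 := by simp [walk2]

variable {d k : ℕ}

variable {Ω : Type*} [MeasurableSpace Ω] {P : Measure Ω}
  {X : Fin (k + 1) × ℕ → Ω → Fin d → ℤ} {A : Finset (Fin d → ℤ)}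

theorem Steps.approx (hX : Steps P X) (hk : 2 * (k + 1) < d) {η : ℝ} (hη : 0 < η) {M : ℕ}
    (hM : ∀ᶠ z in cofinite,
      Err X A P (fun l => ∃ i, M < l i) z ≤ ENNReal.ofReal (η / 2) * gE d k z) :
    ∀ᶠ z in cofinite, |(P (⋃ n, Hn X A z n)).toReal / gR d k z -
      (∑' y, P {ω | loc A M (0 : Fin (k + 1) → ℕ) y fun p => X p ω}).toReal| ≤ η := by
  have hd : 0 < d := by omega
  have hP := hX.ind.isProbabilityMeasure
  have : Nonempty (Fin d) := ⟨⟨0, hd⟩⟩
  have hG := gR_pos hk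
  -- the first moment
  have hν0 : ∀ y ∉ A, (if y ∈ A then (1 : ℝ≥0∞) else 0) = 0 := fun y hy => if_neg hy
  have hν0' : ∀ y, (if y ∈ A then (1 : ℝ≥0∞) else 0) ≠ ⊤ := fun y => by split_ifs <;> simp
  have hsum0 : ∑' y, (if y ∈ A then (1 : ℝ≥0∞) else 0) = A.card := by
    rw [tsum_eq_sum (s := A) hν0, sum_congr rfl fun y hy => if_pos hy]; simp
  have hT0 : Tendsto (fun z => (∑' n, P (Hn X A z n)).toReal / gR d k z) cofinite
      (𝓝 (A.card : ℝ)) := by
    have := lim_conv hk hν0 hν0'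
    rw [hsum0] at this
    simpa only [hX.tsum_Hn hd, gI_fin_succ, ENNReal.toReal_natCast] using this
  have hT0' : ∀ z, ∑' n, P (Hn X A z n) ≠ ⊤ := fun z => by
    simpa only [hX.tsum_Hn hd, gI_fin_succ] using conv_ne_top hk hν0 hν0' z
  set m := ∑ _i : Fin (k + 1), M with hm
  set ν1 : (Fin d → ℤ) → ℝ≥0∞ := fun y => ∑' v, pE d m v * if y + v ∈ A then 1 else 0 with hν1
  set F := A.biUnion fun a => (Fintype.piFinset fun _ : Fin d =>
    Finset.Icc (-(m : ℤ)) m).image fun v => a - v with hF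
  have hν1F : ∀ y ∉ F, ν1 y = 0 := by
    intro y hy
    rw [hν1]
    simp only [ENNReal.tsum_eq_zero]
    intro v
    split_ifs with hv
    · rw [mul_one]
      refine pE_eq_zero hd m v ?_
      by_contra hh
      exact hy (mem_biUnion.2 ⟨_, hv, mem_image.2 ⟨v, mem_box (not_lt.1 hh), by abel⟩⟩)
    · exact mul_zero _
  have hν1P : ∀ y, ν1 y = P {ω | y + ∑ p ∈ blk 0 (fun _ => M), X p ω ∈ A} := fun y => by
    rw [hX.measure_mem hd, card_blk]
  have hν1' : ∀ y, ν1 y ≠ ⊤ := fun y => by rw [hν1P]; exact measure_ne_top _ _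
  have hsum1 : ∑' y, ν1 y = A.card := by
    rw [hν1, ENNReal.tsum_comm]
    simp only [ENNReal.tsum_mul_left]
    have e : ∀ v : Fin d → ℤ, ∑' y, (if y + v ∈ A then (1 : ℝ≥0∞) else 0) = A.card := fun v =>
      ((Equiv.addRight v).tsum_eq (fun y => if y ∈ A then (1 : ℝ≥0∞) else 0)).trans hsum0
    simp only [e]
    rw [ENNReal.tsum_mul_right, tsum_pE hd, one_mul]
  have hT1 : Tendsto (fun z => (∑' n, P (Hn X A z (n + fun _ => M))).toReal / gR d k z) cofinite
      (𝓝 (A.card : ℝ)) := by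
    have := lim_conv hk hν1F hν1'
    rw [hsum1] at this
    simpa only [hX.tsum_Hn_shift hd, gI_fin_succ, ENNReal.toReal_natCast] using this
  set ν2 : (Fin d → ℤ) → ℝ≥0∞ :=
    fun y => P {ω | loc A M (0 : Fin (k + 1) → ℕ) y fun p => X p ω} with hν2
  have hν2F : ∀ y ∉ F, ν2 y = 0 := by
    intro y hy
    refine le_antisymm (le_trans ?_ (hν1F y hy).le) zero_le
    rw [hν1P]
    exact measure_mono fun ω h => h.1
  have hν2' : ∀ y, ν2 y ≠ ⊤ := fun y => measure_ne_top _ _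
  have hB : Tendsto (fun z => (∑' n, P (Ew X A M z n)).toReal / gR d k z) cofinite
      (𝓝 (∑' y, ν2 y).toReal) := by
    simpa only [hX.tsum_Ew hd, gI_fin_succ] using lim_conv hk hν2F hν2'
  have hB' : ∀ z, ∑' n, P (Ew X A M z n) ≠ ⊤ := fun z => by
    simpa only [hX.tsum_Ew hd, gI_fin_succ] using conv_ne_top hk hν2F hν2' z
  have hR := (hT0.sub hT1).add hB
  rw [sub_self, zero_add] at hR
  filter_upwards [hM, hR.eventually_lt_const (show _ < (∑' y, ν2 y).toReal + η by linarith),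
    hB.eventually_const_lt (show (∑' y, ν2 y).toReal - η / 2 < _ by linarith)] with z h1 h2 h3
  have hsplit := tsum_split (fun _ => M) (fun n => P (Hn X A z n))
  have hfin := hT0' z
  rw [hsplit, ENNReal.add_ne_top] at hfin
  have e1 := congrArg ENNReal.toReal hsplit
  rw [ENNReal.toReal_add hfin.1 hfin.2] at e1
  have e2 := ENNReal.toReal_mono (ENNReal.add_ne_top.2 ⟨hB' z, hfin.2⟩) (hX.hit_le M z)
  rw [ENNReal.toReal_add (hB' z) hfin.2] at e2
  have e3 := ENNReal.toReal_mono (ENNReal.add_ne_top.2 ⟨measure_ne_top _ _,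
    ENNReal.mul_ne_top ENNReal.ofReal_ne_top (gE_ne_top hk z)⟩)
    ((hX.le_hit M z).trans (add_le_add le_rfl h1))
  rw [ENNReal.toReal_add (measure_ne_top _ _)
    (ENNReal.mul_ne_top ENNReal.ofReal_ne_top (gE_ne_top hk z)), ENNReal.toReal_mul,
    ENNReal.toReal_ofReal (by positivity)] at e3
  have hGz := hG z
  rw [← sub_div, ← add_div, div_lt_iff₀ hGz] at h2
  rw [lt_div_iff₀ hGz] at h3
  rw [abs_le]
  constructor
  · rw [le_sub_iff_add_le, le_div_iff₀ hGz]
    unfold gR at *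
    nlinarith
  · rw [sub_le_iff_le_add, div_le_iff₀ hGz]
    unfold gR at *
    nlinarith

theorem Err_mono {M M' : ℕ} (h : M ≤ M') (z : Fin d → ℤ) :
    Err X A P (fun l => ∃ i, M' < l i) z ≤ Err X A P (fun l => ∃ i, M < l i) z := by
  unfold Err
  refine ENNReal.tsum_le_tsum fun n => ENNReal.tsum_le_tsum fun n' => ?_
  split_ifs with h1 h2
  · exact le_rfl
  · obtain ⟨i, hi⟩ := h1
    exact absurd ⟨i, by omega⟩ h2
  · exact zero_le
  · exact le_rfl

theorem Steps.tendsto_loc (hX : Steps P X) (hk : 2 * (k + 1) < d) {L : ℝ}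
    (hL : Tendsto (fun z => (P (⋃ n, Hn X A z n)).toReal / gR d k z) cofinite (𝓝 L)) :
    Tendsto (fun M : ℕ =>
      (∑' y, P {ω | loc A M (0 : Fin (k + 1) → ℕ) y fun p => X p ω}).toReal) atTop (𝓝 L) := by
  have : Nonempty (Fin d) := ⟨⟨0, by omega⟩⟩
  rw [Metric.tendsto_atTop]
  intro ε hε
  obtain ⟨M₀, hM₀⟩ := hX.err_small hk A (η := ε / 2 / 2) (by positivity)
  refine ⟨M₀, fun M hM => ?_⟩
  have h1 := hX.approx hk (η := ε / 2) (M := M) (by positivity)
    (hM₀.mono fun z hz => (Err_mono hM z).trans hz)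
  have h2 := le_of_tendsto ((hL.sub_const _).abs) h1
  rw [Real.dist_eq, abs_sub_comm]
  linarith

theorem Steps.loc_law {N : ℕ} {Ω' : Type*} [MeasurableSpace Ω'] {P' : Measure Ω'}
    {X : Fin N × ℕ → Ω → Fin d → ℤ} {X' : Fin N × ℕ → Ω' → Fin d → ℤ}
    (hX : Steps P X) (hX' : Steps P' X') (M : ℕ) (y : Fin d → ℤ) :
    P {ω | loc A M (0 : Fin N → ℕ) y fun p => X p ω} =
      P' {ω | loc A M (0 : Fin N → ℕ) y fun p => X' p ω} := by
  have he : Function.Injective (fun p : ↥(blk (0 : Fin N → ℕ) fun _ => 2 * M) => p.1) :=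
    Subtype.val_injective
  let φ : (↥(blk (0 : Fin N → ℕ) fun _ => 2 * M) → Fin d → ℤ) → Prop := fun f =>
    loc A M (0 : Fin N → ℕ) y fun i =>
      if hi : i ∈ blk (0 : Fin N → ℕ) (fun _ => 2 * M) then f ⟨i, hi⟩ else 0
  rw [(dep_loc M 0 y).eq_preimage (X := X), (dep_loc (A := A) M 0 y).eq_preimage (X := X')]
  exact (hX.stationary he φ).trans (hX'.stationary he φ).symm

/-- Escape within a window of times. -/
def EscW {N : ℕ} {Ω' : Type*} (Y : Fin N × ℤ → Ω' → Fin d → ℤ) (A : Finset (Fin d → ℤ))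
    (a : Fin d → ℤ) (M : ℕ) : Set Ω' :=
  {ω | ∀ t : Fin N → ℤ, (∀ i, |t i| ≤ M) → toLex t < toLex 0 →
    a + ∑ i, walk2 (fun j => Y (i, j) ω) (t i) ∉ A}

theorem Steps.sum_loc {N : ℕ} {Ω' : Type*} [MeasurableSpace Ω'] {P' : Measure Ω'}
    {Y : Fin N × ℤ → Ω' → Fin d → ℤ} (hY : Steps P' Y) (M : ℕ) :
    ∃ X' : Fin N × ℕ → Ω' → Fin d → ℤ, Steps P' X' ∧ (∀ a, MeasurableSet (EscW Y A a M)) ∧
      ∑' y, P' {ω | loc A M (0 : Fin N → ℕ) y fun p => X' p ω} = ∑ a ∈ A, P' (EscW Y A a M) := by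
  classical
  let e : Fin N × ℕ → Fin N × ℤ := fun p => (p.1, -(M : ℤ) + p.2)
  have he : Function.Injective e := by
    rintro ⟨i, j⟩ ⟨i', j'⟩ h
    simp only [e, Prod.mk.injEq] at h
    obtain ⟨rfl, h⟩ := h
    have : j = j' := by omega
    rw [this]
  let X' : Fin N × ℕ → Ω' → Fin d → ℤ := fun p => Y (e p)
  have hX' : Steps P' X' := ⟨fun p => hY.meas _, hY.ind.precomp he, fun p => hY.law _⟩
  have hs : ∀ (t : Fin N → ℕ) (ω : Ω'), ∑ p ∈ blk 0 t, X' p ω =
      ∑ i, walk2 (fun j => Y (i, j) ω) (-(M : ℤ) + t i) -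
        ∑ i, walk2 (fun j => Y (i, j) ω) (-(M : ℤ)) := by
    intro t ω
    rw [sum_blk, ← sum_sub_distrib]
    refine sum_congr rfl fun i _ => ?_
    rw [walk2_add]
    simp [X', e]
  have hs0 : ∀ ω : Ω', ∑ p ∈ blk 0 (fun _ => M), X' p ω =
      - ∑ i, walk2 (fun j => Y (i, j) ω) (-(M : ℤ)) := by
    intro ω
    rw [hs]
    simp [walk2_zero]
  have hlex : ∀ t : Fin N → ℕ, toLex t < toLex (fun _ => M : Fin N → ℕ) ↔
      toLex (fun i => -(M : ℤ) + t i) < toLex (0 : Fin N → ℤ) := by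
    intro t
    change Pi.Lex _ _ _ _ ↔ Pi.Lex _ _ _ _
    refine exists_congr fun i => and_congr (forall_congr' fun j => forall_congr' fun _ => ?_) ?_
    · change t j = M ↔ -(M : ℤ) + t j = 0
      omega
    · change t i < M ↔ -(M : ℤ) + t i < 0
      omega
  have key : ∀ a y ω, (y + ∑ p ∈ blk 0 (fun _ => M), X' p ω = a) → a ∈ A →
      ((loc A M (0 : Fin N → ℕ) y fun p => X' p ω) ↔ ω ∈ EscW Y A a M) := by
    intro a y ω hy ha
    have h1 : ∀ t : Fin N → ℕ, y + ∑ p ∈ blk 0 t, X' p ω =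
        a + ∑ i, walk2 (fun j => Y (i, j) ω) (-(M : ℤ) + t i) := by
      intro t
      rw [hs, ← hy, hs0]; abel
    constructor
    · intro h t ht hlt
      have h2 : ∀ i, -(M : ℤ) + ((t i + M).toNat : ℕ) = t i := fun i => by
        have := abs_le.1 (ht i); omega
      have h3 := h.2 (fun i => (t i + M).toNat) (fun i => by have := abs_le.1 (ht i); omega)
        ((hlex _).2 (by simpa only [h2] using hlt))
      rw [h1] at h3
      simpa only [h2] using h3
    · intro h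
      refine ⟨hy ▸ ha, fun t ht hlt => ?_⟩
      rw [h1]
      exact h _ (fun i => abs_le.2 ⟨by omega, by have := ht i; omega⟩) ((hlex t).1 hlt)
  have hm1 : ∀ a y, MeasurableSet {ω | y + ∑ p ∈ blk 0 (fun _ => M), X' p ω = a} := fun a y =>
    hX'.meas_dep (φ := fun f => y + ∑ p ∈ blk 0 (fun _ => M), f p = a) (S := blk 0 fun _ => M)
      fun f g hfg h => by rw [← h, sum_congr rfl hfg]
  have hm2 : ∀ a, MeasurableSet (EscW Y A a M) := by
    intro a
    have : EscW Y A a M = ⋂ t : Fin N → ℤ, ⋂ _ : ∀ i, |t i| ≤ M, ⋂ _ : toLex t < toLex 0,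
        (fun ω => a + ∑ i, walk2 (fun j => Y (i, j) ω) (t i)) ⁻¹' (A : Set (Fin d → ℤ))ᶜ := by
      ext ω; simp [EscW]
    rw [this]
    refine MeasurableSet.iInter fun t => MeasurableSet.iInter fun _ => MeasurableSet.iInter
      fun _ => Measurable.const_add ?_ a MeasurableSet.of_discrete
    refine Finset.measurable_fun_sum _ fun i _ => ?_
    unfold walk2
    exact (Finset.measurable_fun_sum _ fun j _ => hY.meas _).sub
      (Finset.measurable_fun_sum _ fun j _ => hY.meas _)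
  refine ⟨X', hX', hm2, ?_⟩
  have h3 : ∀ y, P' {ω | loc A M (0 : Fin N → ℕ) y fun p => X' p ω} =
      ∑ a ∈ A, P' ({ω | y + ∑ p ∈ blk 0 (fun _ => M), X' p ω = a} ∩ EscW Y A a M) := by
    intro y
    rw [← measure_biUnion_finset]
    · congr 1
      ext ω
      simp only [Set.mem_ofPred_eq, Set.mem_iUnion, Set.mem_inter_iff]
      constructor
      · intro h
        exact ⟨_, h.1, rfl, (key _ y ω rfl h.1).1 h⟩
      · rintro ⟨a, ha, h1, h2⟩
        exact (key a y ω h1 ha).2 h2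
    · intro a _ a' _ haa
      exact Set.disjoint_left.2 fun ω h1 h2 => haa (h1.1.symm.trans h2.1)
    · exact fun a _ => (hm1 a y).inter (hm2 a)
  simp only [h3]
  rw [tsum_fsum]
  refine sum_congr rfl fun a _ => ?_
  rw [← measure_iUnion]
  · congr 1
    ext ω
    simp only [Set.mem_iUnion, Set.mem_inter_iff, Set.mem_ofPred_eq]
    exact ⟨fun ⟨_, _, h⟩ => h, fun h => ⟨a - ∑ p ∈ blk 0 (fun _ => M), X' p ω, by abel, h⟩⟩
  · intro y y' hyy
    exact Set.disjoint_left.2 fun ω h1 h2 => hyy (add_right_cancel (h1.1.trans h2.1.symm))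
  · exact fun y => (hm1 a y).inter (hm2 a)

theorem Steps.formula (hX : Steps P X) (hk : 2 * (k + 1) < d) {L : ℝ}
    (hL : Tendsto (fun z => (P (⋃ n, Hn X A z n)).toReal / gR d k z) cofinite (𝓝 L))
    {Ω' : Type*} [MeasurableSpace Ω'] {P' : Measure Ω'}
    {Y : Fin (k + 1) × ℤ → Ω' → Fin d → ℤ} (hY : Steps P' Y) :
    L = ∑ a ∈ A, P'.real {ω | ∀ t : Fin (k + 1) → ℤ, toLex t < toLex 0 →
      a + ∑ i, walk2 (fun j => Y (i, j) ω) (t i) ∉ A} := by
  have hP' := hY.ind.isProbabilityMeasure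
  refine tendsto_nhds_unique (hX.tendsto_loc hk hL) ?_
  have h1 : ∀ M : ℕ, (∑' y, P {ω | loc A M (0 : Fin (k + 1) → ℕ) y fun p => X p ω}).toReal =
      ∑ a ∈ A, (P' (EscW Y A a M)).toReal := by
    intro M
    obtain ⟨X', hX', -, h⟩ := hY.sum_loc (A := A) M
    simp only [hX.loc_law hX' M]
    rw [h, ENNReal.toReal_sum fun a _ => measure_ne_top _ _]
  simp only [h1]
  refine tendsto_finsetSum _ fun a _ => ?_
  have h2 : {ω | ∀ t : Fin (k + 1) → ℤ, toLex t < toLex 0 →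
      a + ∑ i, walk2 (fun j => Y (i, j) ω) (t i) ∉ A} = ⋂ M : ℕ, EscW Y A a M := by
    ext ω
    simp only [Set.mem_ofPred_eq, Set.mem_iInter, EscW]
    constructor
    · exact fun h M t _ hlt => h t hlt
    · intro h t hlt
      refine h (univ.sup fun i => (t i).natAbs) t (fun i => ?_) hlt
      have := le_sup (f := fun i => (t i).natAbs) (mem_univ i)
      rw [Int.abs_eq_natAbs]
      exact_mod_cast this
  rw [h2, Measure.real]
  refine (ENNReal.tendsto_toReal (measure_ne_top _ _)).comp ?_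
  refine tendsto_measure_iInter_atTop (fun M => ?_) ?_ ⟨0, measure_ne_top _ _⟩
  · obtain ⟨-, -, h, -⟩ := hY.sum_loc (A := A) M
    exact (h a).nullMeasurableSet
  · intro M M' hMM ω h t ht hlt
    exact h t (fun i => (ht i).trans (by exact_mod_cast hMM)) hlt

end Pool.Agent.Lib.MP_a3b629_pr
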